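import Mathlib

set_option autoImplicit false

/-!
Averages of periodic functions on the integers over a period and over intervals.
-/

namespace Pool.Agent.H541.LL

open Finset

/-- average over a period -/
noncomputable def av (P : ℕ) (F : ℤ → ℝ) : ℝ := (∑ y ∈ range P, F (y : ℤ)) / P

lemma av_two (m n : ℕ) (hm : 0 < m) (hn : 0 < n) (hmn : m.Coprime n) (f g : ℤ → ℝ)
    (hf : ∀ y z : ℤ, (m : ℤ) ∣ y - z → f y = f z) (hg : ∀ y z : ℤ, (n : ℤ) ∣ y - z → g y = g z) :
    av (m * n) (fun y => f y * g y) = av m f * av n g := by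
  have h1 : ∑ y ∈ range (m * n), f (y : ℤ) * g (y : ℤ) =
      (∑ a ∈ range m, f (a : ℤ)) * ∑ b ∈ range n, g (b : ℤ) := by
    rw [sum_mul_sum, ← sum_product']
    apply sum_nbij' (fun y => (y % m, y % n)) (fun p => ((Nat.chineseRemainder hmn p.1 p.2 : ℕ)))
    · intro y _
      rw [mem_product, mem_range, mem_range]
      exact ⟨Nat.mod_lt _ hm, Nat.mod_lt _ hn⟩
    · intro p _
      rw [mem_range]
      exact Nat.chineseRemainder_lt_mul hmn p.1 p.2 hm.ne' hn.ne'
    · intro y hy
      rw [mem_range] at hy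
      have h2 := (Nat.chineseRemainder hmn (y % m) (y % n)).2
      have h3 := Nat.chineseRemainder_lt_mul hmn (y % m) (y % n) hm.ne' hn.ne'
      have h4 : ((Nat.chineseRemainder hmn (y % m) (y % n) : ℕ)) ≡ y [MOD m * n] := by
        rw [← Nat.modEq_and_modEq_iff_modEq_mul hmn]
        exact ⟨h2.1.trans (Nat.mod_modEq _ _), h2.2.trans (Nat.mod_modEq _ _)⟩
      exact Nat.ModEq.eq_of_lt_of_lt h4 h3 hy
    · intro p hp
      rw [mem_product, mem_range, mem_range] at hp
      have h2 := (Nat.chineseRemainder hmn p.1 p.2).2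
      ext
      · have := h2.1
        rw [Nat.ModEq, Nat.mod_eq_of_lt hp.1] at this
        exact this
      · have := h2.2
        rw [Nat.ModEq, Nat.mod_eq_of_lt hp.2] at this
        exact this
    · intro y _
      congr 1
      · apply hf
        rw [Int.natCast_mod]
        exact Int.dvd_self_sub_of_emod_eq rfl
      · apply hg
        rw [Int.natCast_mod]
        exact Int.dvd_self_sub_of_emod_eq rfl
  unfold av
  rw [h1]
  push_cast
  have : (m : ℝ) ≠ 0 := by positivity
  have : (n : ℝ) ≠ 0 := by positivity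
  field_simp

lemma av_prod (Q : Finset ℕ) (hQ : ∀ p ∈ Q, p.Prime) (f : ℕ → ℤ → ℝ)
    (hf : ∀ p ∈ Q, ∀ y z : ℤ, (p : ℤ) ∣ y - z → f p y = f p z) :
    av (∏ p ∈ Q, p) (fun y => ∏ p ∈ Q, f p y) = ∏ p ∈ Q, av p (f p) := by
  induction Q using Finset.induction_on with
  | empty => simp [av]
  | insert q Q hq ih =>
    have hQ' : ∀ p ∈ Q, p.Prime := fun p hp => hQ p (mem_insert_of_mem hp)
    have hqp : q.Prime := hQ q (mem_insert_self _ _)
    rw [prod_insert hq, prod_insert hq]
    have h1 := av_two q (∏ p ∈ Q, p) hqp.pos (prod_pos fun p hp => (hQ' p hp).pos) (by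
      apply Nat.Coprime.prod_right
      intro p hp
      rw [Nat.coprime_primes hqp (hQ' p hp)]
      rintro rfl
      exact hq hp) (f q) (fun y => ∏ p ∈ Q, f p y) (hf q (mem_insert_self _ _)) (by
      intro y z hyz
      apply prod_congr rfl
      intro p hp
      apply hf p (mem_insert_of_mem hp)
      refine dvd_trans ?_ hyz
      exact_mod_cast dvd_prod_of_mem (fun p => p) hp)
    rw [ih hQ' (fun p hp => hf p (mem_insert_of_mem hp))] at h1
    rw [← h1]
    congr 1
    ext y
    rw [prod_insert hq]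

/-- exactly one number of a period is divisible by `p` after a shift -/
lemma av_dvd (p : ℕ) (hp : 0 < p) (i : ℤ) :
    av p (fun y => if (p : ℤ) ∣ y + i then 1 else 0) = 1 / p := by
  unfold av
  congr 1
  rw [← sum_filter, sum_const, nsmul_eq_mul, mul_one]
  have h0 : (0 : ℤ) < p := by exact_mod_cast hp
  have h1 : (range p).filter (fun y => (p : ℤ) ∣ ((y : ℕ) : ℤ) + i) = {((-i) % p).toNat} := by
    have h2 : 0 ≤ (-i) % (p : ℤ) := Int.emod_nonneg _ h0.ne'
    have h3 : (-i) % (p : ℤ) < p := Int.emod_lt_of_pos _ h0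
    ext y
    simp only [mem_filter, mem_range, mem_singleton]
    constructor
    · rintro ⟨hy, hd⟩
      have h4 : (-i) % (p : ℤ) = y := by
        have h5 : (p : ℤ) ∣ (y : ℤ) - (-i) := by simpa using hd
        have h6 : (-i) % (p : ℤ) = (y : ℤ) % (p : ℤ) := (Int.modEq_iff_dvd.2 h5 : (-i) ≡ (y : ℤ) [ZMOD p])
        rw [h6, Int.emod_eq_of_lt (by positivity) (by exact_mod_cast hy)]
      rw [h4]
      simp
    · rintro rfl
      constructor
      · omega
      · rw [Int.toNat_of_nonneg h2]
        have h5 : (p : ℤ) ∣ (-i) - (-i) % p := Int.dvd_self_sub_of_emod_eq rfl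
        have h6 : (-i) % (p : ℤ) + i = -((-i) - (-i) % p) := by ring
        rw [h6]
        exact (dvd_neg.2 h5)
  rw [h1, card_singleton]
  simp

end Pool.Agent.H541.LL
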