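import Pool.Agent.H541.LL.Dev

set_option autoImplicit false

/-!
Truncated inclusion-exclusion for the numbers without prime factors in a finite set.
-/

namespace Pool.Agent.H541.LL

open Finset

/-- indicator of the numbers divisible by all members of `t` -/
noncomputable def ind (t : Finset ℕ) (a : ℤ) : ℝ := if ∀ p ∈ t, (p : ℤ) ∣ a then 1 else 0

/-- the small subsets -/
def Pw (Q : Finset ℕ) (r : ℕ) : Finset (Finset ℕ) := Q.powerset.filter (fun t => t.card ≤ r)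

/-- truncated inclusion-exclusion -/
noncomputable def SS (Q : Finset ℕ) (r : ℕ) (a : ℤ) : ℝ := ∑ t ∈ Pw Q r, (-1 : ℝ) ^ t.card * ind t a

/-- indicator of the numbers divisible by no member of `Q` -/
noncomputable def cop (Q : Finset ℕ) (a : ℤ) : ℝ := if ∀ p ∈ Q, ¬ (p : ℤ) ∣ a then 1 else 0

lemma SS_eq (Q : Finset ℕ) (r : ℕ) (a : ℤ) :
    SS Q r a = ∑ j ∈ range (r + 1), (-1 : ℝ) ^ j *
      (((Q.filter (fun p => ((p : ℕ) : ℤ) ∣ a)).card.choose j : ℕ) : ℝ) := by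
  set A := Q.filter (fun p => ((p : ℕ) : ℤ) ∣ a) with hA
  have h1 : SS Q r a = ∑ t ∈ A.powerset.filter (fun t => t.card ≤ r), (-1 : ℝ) ^ t.card := by
    unfold SS ind
    simp only [mul_ite, mul_one, mul_zero]
    rw [← sum_filter]
    apply sum_congr
    · ext t
      simp only [Pw, mem_filter, mem_powerset, hA]
      constructor
      · rintro ⟨⟨h1, h2⟩, h3⟩
        exact ⟨fun p hp => mem_filter.2 ⟨h1 hp, h3 p hp⟩, h2⟩
      · rintro ⟨h1, h2⟩
        exact ⟨⟨fun p hp => (mem_filter.1 (h1 hp)).1, h2⟩, fun p hp => (mem_filter.1 (h1 hp)).2⟩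
    · intro _ _
      rfl
  have h2 : A.powerset.filter (fun t => t.card ≤ r) =
      (range (r + 1)).biUnion (fun j => powersetCard j A) := by
    ext t
    simp only [mem_filter, mem_powerset, mem_biUnion, mem_range, mem_powersetCard]
    constructor
    · rintro ⟨h1, h2⟩
      exact ⟨t.card, by omega, h1, rfl⟩
    · rintro ⟨j, hj, h1, h2⟩
      exact ⟨h1, by omega⟩
  rw [h1, h2, sum_biUnion]
  · apply sum_congr rfl
    intro j _
    rw [sum_congr rfl (g := fun _ => (-1 : ℝ) ^ j)]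
    · rw [sum_const, card_powersetCard, nsmul_eq_mul]
      ring
    · intro t ht
      rw [(mem_powersetCard.1 ht).2]
  · intro i _ j _ hij
    rw [Function.onFun, disjoint_left]
    intro t ht1 ht2
    rw [mem_powersetCard] at ht1 ht2
    exact hij (ht1.2.symm.trans ht2.2)

lemma SS_succ (Q : Finset ℕ) (r : ℕ) (hr : Even r) (a : ℤ) (n : ℕ)
    (hn : (Q.filter (fun p => ((p : ℕ) : ℤ) ∣ a)).card = n + 1) :
    SS Q r a = ((n.choose r : ℕ) : ℝ) := by
  rw [SS_eq, hn]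
  have h1 := @Int.alternating_sum_range_choose_eq_choose n r
  have h2 : ((∑ i ∈ range (r + 1), ((-1) ^ i * ((n + 1).choose i : ℤ) : ℤ) : ℤ) : ℝ) =
      (((-1) ^ r * (n.choose r : ℤ) : ℤ) : ℝ) := by rw [h1]
  push_cast at h2
  rw [h2, hr.neg_one_pow, one_mul]

lemma SS_zero (Q : Finset ℕ) (r : ℕ) (a : ℤ)
    (hn : (Q.filter (fun p => ((p : ℕ) : ℤ) ∣ a)).card = 0) : SS Q r a = 1 := by
  rw [SS_eq, hn, sum_range_succ']
  simp

lemma cop_eq (Q : Finset ℕ) (a : ℤ) :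
    cop Q a = if (Q.filter (fun p => ((p : ℕ) : ℤ) ∣ a)).card = 0 then 1 else 0 := by
  unfold cop
  congr 1
  rw [card_eq_zero, filter_eq_empty_iff]

lemma cop_le_SS (Q : Finset ℕ) (r : ℕ) (hr : Even r) (a : ℤ) : cop Q a ≤ SS Q r a := by
  rw [cop_eq]
  rcases Nat.eq_zero_or_pos (Q.filter (fun p => ((p : ℕ) : ℤ) ∣ a)).card with h | h
  · rw [if_pos h, SS_zero Q r a h]
  · rw [if_neg h.ne']
    obtain ⟨n, hn⟩ := Nat.exists_eq_succ_of_ne_zero h.ne'
    rw [SS_succ Q r hr a n hn]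
    positivity

/-- the error of the truncation -/
lemma err_sq (Q : Finset ℕ) (r : ℕ) (hr : Even r) (K : ℝ) (hK : 1 ≤ K) (a : ℤ) :
    (SS Q r a - cop Q a) ^ 2 ≤ K⁻¹ ^ r * ∏ p ∈ Q, (if ((p : ℕ) : ℤ) ∣ a then 4 * K else 1) := by
  have hK0 : 0 < K := by linarith
  have hprod : ∏ p ∈ Q, (if ((p : ℕ) : ℤ) ∣ a then 4 * K else 1) =
      (4 * K) ^ (Q.filter (fun p => ((p : ℕ) : ℤ) ∣ a)).card := by
    rw [prod_ite, prod_const, prod_const, one_pow, mul_one]
  rw [hprod, cop_eq]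
  rcases Nat.eq_zero_or_pos (Q.filter (fun p => ((p : ℕ) : ℤ) ∣ a)).card with h | h
  · rw [if_pos h, SS_zero Q r a h]
    rw [sub_self, zero_pow two_ne_zero]
    positivity
  · rw [if_neg h.ne']
    obtain ⟨n, hn⟩ := Nat.exists_eq_succ_of_ne_zero h.ne'
    rw [SS_succ Q r hr a n hn, sub_zero, hn]
    rcases Nat.lt_or_ge n r with hnr | hnr
    · rw [Nat.choose_eq_zero_of_lt hnr]
      rw [Nat.cast_zero, zero_pow two_ne_zero]
      positivity
    · have h1 : ((n.choose r : ℕ) : ℝ) ≤ 2 ^ n := by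
        exact_mod_cast Nat.choose_le_two_pow n r
      have h2 : ((n.choose r : ℕ) : ℝ) ^ 2 ≤ 4 ^ n := by
        calc ((n.choose r : ℕ) : ℝ) ^ 2 ≤ (2 ^ n) ^ 2 := by gcongr
          _ = 4 ^ n := by
            rw [← pow_mul, mul_comm, pow_mul]
            norm_num
      calc ((n.choose r : ℕ) : ℝ) ^ 2 ≤ 4 ^ n := h2
        _ ≤ 4 ^ (n + 1) * K ^ (n + 1 - r) := by
          have h3 : (1 : ℝ) ≤ K ^ (n + 1 - r) := one_le_pow₀ hK
          have h4 : (4 : ℝ) ^ n ≤ 4 ^ (n + 1) := pow_le_pow_right₀ (by norm_num) (by omega)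
          calc (4 : ℝ) ^ n = 4 ^ n * 1 := by ring
            _ ≤ 4 ^ (n + 1) * K ^ (n + 1 - r) := by gcongr
        _ = K⁻¹ ^ r * (4 * K) ^ (n + 1) := by
          have h5 : K ^ (n + 1) = K ^ r * K ^ (n + 1 - r) := by
            rw [← pow_add]
            congr 1
            omega
          rw [mul_pow, h5, inv_pow]
          field_simp
        _ = K⁻¹ ^ r * (4 * K) ^ n.succ := rfl

end Pool.Agent.H541.LL
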