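import Pool.Agent.H541.LL.Tree

set_option autoImplicit false

/-!
From the count of survivors to the Hausdorff content of the limit set.
-/

namespace Pool.Agent.H541.LL

open Finset Metric
open scoped ENNReal

/-- the closed dyadic interval of level `n` with number `k` -/
def DI (n k : ℕ) : Set ℝ := Set.Icc ((k : ℝ) / 2 ^ n) (((k : ℝ) + 1) / 2 ^ n)

lemma DI_succ (n k : ℕ) : DI (n + 1) k ⊆ DI n (k / 2) := by
  intro θ hθ
  obtain ⟨h1, h2⟩ := hθ
  have hk1 : 2 * ((k / 2 : ℕ) : ℝ) ≤ k := by
    have : 2 * (k / 2) ≤ k := by omega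
    exact_mod_cast this
  have hk2 : (k : ℝ) + 1 ≤ 2 * ((k / 2 : ℕ) : ℝ) + 2 := by
    have : k + 1 ≤ 2 * (k / 2) + 2 := by omega
    exact_mod_cast this
  have h2n : (0 : ℝ) < 2 ^ n := by positivity
  rw [pow_succ] at h1 h2
  constructor
  · refine le_trans ?_ h1
    rw [div_le_div_iff₀ h2n (by positivity)]
    nlinarith
  · refine le_trans h2 ?_
    rw [div_le_div_iff₀ (by positivity) h2n]
    nlinarith

/-- a set of diameter at most `2^{-n}` meets at most three intervals of level `n` -/
lemma card_meet (n : ℕ) (V : Set ℝ) (hV : ediam V ≤ ENNReal.ofReal ((1 / 2 : ℝ) ^ n)) (F : Finset ℕ)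
    (hF : ∀ k ∈ F, (DI n k ∩ V).Nonempty) : F.card ≤ 3 := by
  rcases F.eq_empty_or_nonempty with h | h
  · rw [h]
    simp
  · have h1 : F ⊆ Finset.Icc (F.min' h) (F.min' h + 2) := by
      intro k hk
      rw [Finset.mem_Icc]
      refine ⟨F.min'_le k hk, ?_⟩
      by_contra hlt
      push Not at hlt
      obtain ⟨θ, ⟨hθ1, hθ2⟩, hθV⟩ := hF k hk
      obtain ⟨τ, ⟨hτ1, hτ2⟩, hτV⟩ := hF _ (F.min'_mem h)
      have h2 : edist θ τ ≤ ENNReal.ofReal ((1 / 2 : ℝ) ^ n) :=
        (edist_le_ediam_of_mem hθV hτV).trans hV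
      rw [edist_dist] at h2
      have h3 : dist θ τ ≤ (1 / 2 : ℝ) ^ n :=
        (ENNReal.ofReal_le_ofReal_iff (by positivity)).1 h2
      have h4 : θ - τ ≤ (1 / 2 : ℝ) ^ n := (le_abs_self _).trans h3
      set m := F.min' h
      have h5 : ((m : ℝ) + 3) ≤ k := by
        have : m + 3 ≤ k := by omega
        exact_mod_cast this
      have h2n : (0 : ℝ) < 2 ^ n := by positivity
      have h6 : ((m : ℝ) + 3) / 2 ^ n ≤ θ := by
        refine le_trans ?_ hθ1
        gcongr
      have h7 : (1 / 2 : ℝ) ^ n = 1 / 2 ^ n := by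
        rw [div_pow, one_pow]
      rw [h7] at h4
      have h8 : ((m : ℝ) + 3) / 2 ^ n - ((m : ℝ) + 1) / 2 ^ n ≤ 1 / 2 ^ n := by linarith
      rw [← sub_div, div_le_div_iff_of_pos_right h2n] at h8
      linarith
    calc F.card ≤ (Finset.Icc (F.min' h) (F.min' h + 2)).card := card_le_card h1
      _ = 3 := by
        rw [Nat.card_Icc]
        omega

open Classical in
lemma content (x β η d : ℝ) (s t : ℕ) (R E : ℕ → ℕ → Prop)
    (hs : 1 ≤ s) (ht : 1 ≤ t) (hx0 : 0 < x) (hx1 : x < 1 / 2) (hβ : 0 ≤ β) (hη : 0 ≤ η)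
    (hx : 2 * β / (1 - x) ^ s + 2 * η / (1 - x) ^ t ≤ x)
    (hR0 : ∀ n k, n < s → ¬ R n k) (hE0 : ∀ n k, n < t → ¬ E n k)
    (hR : ∀ m j N, N = m + s → ¬ E m j → j < 2 ^ m →
      (((range (2 ^ N)).filter (fun k => k / 2 ^ s = j ∧ R N k)).card : ℝ) ≤ β * 2 ^ s)
    (hE : ∀ m j N, N = m + t → j < 2 ^ m →
      (((range (2 ^ N)).filter (fun k => k / 2 ^ t = j ∧ E N k)).card : ℝ) ≤ η * 2 ^ t)
    (hd : (2 : ℝ) ^ d = 2 * (1 - x)) (G : Set ℝ)
    (hG : ∀ θ : ℝ, (∀ n, ∃ k, k < 2 ^ n ∧ ¬ R n k ∧ θ ∈ DI n k) → θ ∈ G)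
    (V : ℕ → Set ℝ) (hV : G ⊆ ⋃ i, V i) : (1 / 12 : ℝ≥0∞) ≤ ∑' i, ediam (V i) ^ d := by
  have hd0 : 0 < d := by
    by_contra hneg
    push Not at hneg
    have h1 : (2 : ℝ) ^ d ≤ 1 := Real.rpow_le_one_of_one_le_of_nonpos (by norm_num) hneg
    rw [hd] at h1
    linarith
  by_contra hcon
  push Not at hcon
  set g : ℝ := 2 * (1 - x) with hg
  have hg1 : 1 < g := by
    rw [hg]
    linarith
  have hg0 : 0 < g := by linarith
  have hg2 : g ≤ 2 := by
    rw [hg]
    linarith
  -- enlarge
  have hgap : (1 / 12 : ℝ≥0∞) - ∑' i, ediam (V i) ^ d ≠ 0 := (tsub_pos_of_lt hcon).ne'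
  obtain ⟨ε, hε0, hε⟩ := ENNReal.exists_pos_sum_of_countable hgap ℕ
  set e : ℕ → ℝ≥0∞ := fun i => ediam (V i) ^ d + ε i with he
  have hesum : ∑' i, e i ≤ 1 / 12 := by
    rw [he, ENNReal.tsum_add]
    have h1 := hε.le
    have h2 := add_le_add_right h1 (∑' i, ediam (V i) ^ d)
    rw [add_tsub_cancel_of_le hcon.le] at h2
    exact h2
  have hele : ∀ i, e i ≤ 1 / 12 := fun i => (ENNReal.le_tsum i).trans hesum
  have h112 : (1 / 12 : ℝ≥0∞) ≤ 1 := by
    rw [ENNReal.div_le_iff (by norm_num) (by norm_num)]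
    norm_num
  have hefin : ∀ i, e i ≠ ∞ := fun i => ne_top_of_le_ne_top (by norm_num) ((hele i).trans h112)
  have hepos : ∀ i, 0 < (e i).toReal := by
    intro i
    apply ENNReal.toReal_pos _ (hefin i)
    have : (0 : ℝ≥0∞) < ε i := by exact_mod_cast hε0 i
    exact (this.trans_le le_add_self).ne'
  have hele1 : ∀ i, (e i).toReal ≤ 1 := by
    intro i
    have := ENNReal.toReal_mono (by norm_num) ((hele i).trans h112)
    simpa using this
  have hN : ∀ i, ∃ n : ℕ, (1 / g) ^ (n + 1) < (e i).toReal ∧ (e i).toReal ≤ (1 / g) ^ n := by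
    intro i
    apply exists_nat_pow_near_of_lt_one (hepos i) (hele1 i) (by positivity)
    rw [div_lt_one hg0]
    exact hg1
  choose N hN1 hN2 using hN
  have hdiam : ∀ i, ediam (V i) ≤ ENNReal.ofReal ((1 / 2 : ℝ) ^ (N i)) := by
    intro i
    have h1 : ediam (V i) ^ d ≤ e i := le_self_add
    have h2 : e i ≤ ENNReal.ofReal ((1 / g) ^ (N i)) := by
      rw [← ENNReal.ofReal_toReal (hefin i)]
      exact ENNReal.ofReal_le_ofReal (hN2 i)
    have h3 : ((1 / g) ^ (N i) : ℝ) = ((1 / 2 : ℝ) ^ (N i)) ^ d := by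
      rw [← hd, one_div, ← Real.rpow_neg (by norm_num), ← Real.rpow_natCast ((2 : ℝ) ^ (-d)),
        ← Real.rpow_mul (by norm_num), ← Real.rpow_natCast (1 / 2 : ℝ), ← Real.rpow_mul (by norm_num),
        one_div, ← Real.rpow_neg_one, ← Real.rpow_mul (by norm_num)]
      congr 1
      ring
    rw [h3, ← ENNReal.ofReal_rpow_of_nonneg (by positivity) hd0.le] at h2
    exact (ENNReal.rpow_le_rpow_iff hd0).1 (h1.trans h2)
  -- the additional removal
  set U : ℕ → ℕ → Prop := fun n k => ∃ i, N i = n ∧ (DI n k ∩ V i).Nonempty with hU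
  have hcardU : ∀ n, ((((range (2 ^ n)).filter (fun k => U n k)).card : ℕ) : ℝ≥0∞) ≤
      ∑' i, if N i = n then 3 else 0 := by
    intro n
    have hch : ∀ k, ∃ i, k ∈ (range (2 ^ n)).filter (fun k => U n k) →
        (N i = n ∧ (DI n k ∩ V i).Nonempty) := by
      intro k
      by_cases h : k ∈ (range (2 ^ n)).filter (fun k => U n k)
      · obtain ⟨i, hi⟩ := (mem_filter.1 h).2
        exact ⟨i, fun _ => hi⟩
      · exact ⟨0, fun h' => absurd h' h⟩
    choose f hf using hch
    set F := (range (2 ^ n)).filter (fun k => U n k) with hF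
    have h1 : F.card ≤ 3 * (F.image f).card := by
      apply card_le_mul_card_image
      intro i hi
      rcases (F.filter (fun k => f k = i)).eq_empty_or_nonempty with h | h
      · rw [h]
        simp
      · obtain ⟨k0, hk0⟩ := h
        rw [mem_filter] at hk0
        have hNi : N i = n := by
          rw [← hk0.2]
          exact (hf k0 hk0.1).1
        apply card_meet n (V i)
        · rw [← hNi]
          exact hdiam i
        · intro k hk
          rw [mem_filter] at hk
          have := (hf k hk.1).2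
          rwa [hk.2] at this
    calc (F.card : ℝ≥0∞) ≤ ((3 * (F.image f).card : ℕ) : ℝ≥0∞) := by exact_mod_cast h1
      _ = ∑ i ∈ F.image f, (if N i = n then 3 else 0 : ℝ≥0∞) := by
        rw [Finset.sum_congr rfl (g := fun _ => (3 : ℝ≥0∞))]
        · rw [sum_const, nsmul_eq_mul]
          push_cast
          ring
        · intro i hi
          rw [mem_image] at hi
          obtain ⟨k, hk, rfl⟩ := hi
          rw [if_pos (hf k hk).1]
      _ ≤ ∑' i, if N i = n then 3 else 0 := ENNReal.sum_le_tsum _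
  have hu : ∀ n, ∑ k ∈ range (n + 1), (((range (2 ^ k)).filter (fun j => U k j)).card : ℝ) / g ^ k
      ≤ 1 / 2 := by
    intro n
    have h1 : ENNReal.ofReal (∑ k ∈ range (n + 1),
        (((range (2 ^ k)).filter (fun j => U k j)).card : ℝ) / g ^ k) ≤ 1 / 2 := by
      rw [ENNReal.ofReal_sum_of_nonneg (fun _ _ => by positivity)]
      calc ∑ k ∈ range (n + 1), ENNReal.ofReal
            ((((range (2 ^ k)).filter (fun j => U k j)).card : ℝ) / g ^ k)
          = ∑ k ∈ range (n + 1), ((((range (2 ^ k)).filter (fun j => U k j)).card : ℕ) : ℝ≥0∞) *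
              ENNReal.ofReal ((1 / g) ^ k) := by
            apply sum_congr rfl
            intro k _
            rw [← ENNReal.ofReal_natCast, ← ENNReal.ofReal_mul (by positivity)]
            congr 1
            rw [div_pow, one_pow]
            ring
        _ ≤ ∑ k ∈ range (n + 1), (∑' i, if N i = k then 3 else 0) * ENNReal.ofReal ((1 / g) ^ k) := by
            gcongr with k _
            exact hcardU k
        _ = ∑ k ∈ range (n + 1), ∑' i, (if N i = k then 3 else 0) * ENNReal.ofReal ((1 / g) ^ k) := by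
            apply sum_congr rfl
            intro k _
            rw [ENNReal.tsum_mul_right]
        _ = ∑' i, ∑ k ∈ range (n + 1), (if N i = k then 3 else 0) * ENNReal.ofReal ((1 / g) ^ k) := by
            rw [Summable.tsum_finsetSum]
            intro _ _
            exact ENNReal.summable
        _ ≤ ∑' i, 6 * e i := by
            apply ENNReal.tsum_le_tsum
            intro i
            simp only [ite_mul, zero_mul]
            rw [sum_ite_eq]
            split_ifs
            · have h2 : ENNReal.ofReal ((1 / g) ^ (N i)) ≤ 2 * e i := by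
                have h3 : (1 / g) ^ (N i) ≤ 2 * (e i).toReal := by
                  have h4 := hN1 i
                  rw [pow_succ] at h4
                  have h5 : (1 / g) ^ (N i) = g * ((1 / g) ^ (N i) * (1 / g)) := by
                    field_simp
                  rw [h5]
                  have h6 : 0 ≤ (1 / g) ^ (N i) * (1 / g) := by positivity
                  calc g * ((1 / g) ^ (N i) * (1 / g)) ≤ 2 * ((1 / g) ^ (N i) * (1 / g)) :=
                        mul_le_mul_of_nonneg_right hg2 h6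
                    _ ≤ 2 * (e i).toReal := by linarith
                calc ENNReal.ofReal ((1 / g) ^ (N i)) ≤ ENNReal.ofReal (2 * (e i).toReal) :=
                      ENNReal.ofReal_le_ofReal h3
                  _ = 2 * e i := by
                      rw [ENNReal.ofReal_mul (by norm_num), ENNReal.ofReal_toReal (hefin i)]
                      norm_num
              calc 3 * ENNReal.ofReal ((1 / g) ^ (N i)) ≤ 3 * (2 * e i) := by gcongr
                _ = 6 * e i := by
                    rw [← mul_assoc]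
                    norm_num
            · exact zero_le
        _ = 6 * ∑' i, e i := ENNReal.tsum_mul_left
        _ ≤ 6 * (1 / 12) := by gcongr
        _ = 1 / 2 := by
            rw [one_div, one_div]
            have : (12 : ℝ≥0∞) = 6 * 2 := by norm_num
            rw [this, ENNReal.mul_inv (by norm_num) (by norm_num), ← mul_assoc,
              ENNReal.mul_inv_cancel (by norm_num) (by norm_num), one_mul]
    have h2 : (1 / 2 : ℝ≥0∞) = ENNReal.ofReal (1 / 2) := by
      rw [ENNReal.ofReal_div_of_pos (by norm_num)]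
      simp
    rw [h2] at h1
    exact (ENNReal.ofReal_le_ofReal_iff (by norm_num)).1 h1
  -- survivors
  set Bad : ℕ → ℕ → Prop := fun n k => R n k ∨ E n k ∨ U n k with hBad
  have hsurv : ∀ n, (surv Bad n).Nonempty := by
    intro n
    have h1 := surv_card x β η s t R E U
      (fun n => (((range (2 ^ n)).filter (fun k => U n k)).card : ℝ)) hs ht hx0 (by linarith) hβ hη hx
      hR0 hE0 hR hE (fun n => le_rfl) hu n
    have h2 : (0 : ℝ) < ((surv Bad n).card : ℝ) := lt_of_lt_of_le (by positivity) h1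
    rw [← card_pos]
    exact_mod_cast h2
  -- nested compact sets
  set K : ℕ → Set ℝ := fun n => ⋃ k ∈ surv Bad n, DI n k with hK
  have hKne : (⋂ n, K n).Nonempty := by
    apply IsCompact.nonempty_iInter_of_sequence_nonempty_isCompact_isClosed
    · intro n θ hθ
      simp only [hK, Set.mem_iUnion] at hθ ⊢
      obtain ⟨k, hk, hθk⟩ := hθ
      refine ⟨k / 2, ?_, DI_succ n k hθk⟩
      simp only [surv, mem_filter] at hk
      exact hk.2.1
    · intro n
      obtain ⟨k, hk⟩ := hsurv n
      refine ⟨(k : ℝ) / 2 ^ n, ?_⟩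
      simp only [hK, Set.mem_iUnion]
      refine ⟨k, hk, le_rfl, ?_⟩
      gcongr
      linarith
    · simp only [hK]
      apply Set.Finite.isCompact_biUnion
      · exact (surv Bad 0).finite_toSet
      · intro k _
        exact isCompact_Icc
    · intro n
      simp only [hK]
      apply Set.Finite.isClosed_biUnion
      · exact (surv Bad n).finite_toSet
      · intro k _
        exact isClosed_Icc
  obtain ⟨θ, hθ⟩ := hKne
  rw [Set.mem_iInter] at hθ
  have hθG : θ ∈ G := by
    apply hG
    intro n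
    have h1 := hθ n
    simp only [hK, Set.mem_iUnion] at h1
    obtain ⟨k, hk, hθk⟩ := h1
    exact ⟨k, surv_lt Bad n k hk, fun h => surv_not_bad Bad n k hk (Or.inl h), hθk⟩
  obtain ⟨i, hi⟩ := Set.mem_iUnion.1 (hV hθG)
  have h1 := hθ (N i)
  simp only [hK, Set.mem_iUnion] at h1
  obtain ⟨k, hk, hθk⟩ := h1
  exact surv_not_bad Bad _ k hk (Or.inr (Or.inr ⟨i, rfl, θ, hθk, hi⟩))

end Pool.Agent.H541.LL
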