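import Pool.Agent.H541.LL.Second

set_option autoImplicit false

/-!
Windows with too many integers without small prime factors are rare in every interval.
-/

namespace Pool.Agent.H541.LL

open Finset

/-- products of two indicators are indicators of progressions -/
lemma dev_ind_ind (Q : Finset ℕ) (hQ : ∀ p ∈ Q, p.Prime) (t t' : Finset ℕ) (ht : t ⊆ Q) (ht' : t' ⊆ Q)
    (A B : ℤ) (hAB : A ≤ B) (i j : ℤ) :
    |dev (PP Q) A B (fun y => ind t (y + i) * ind t' (y + j))| ≤ 1 := by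
  classical
  by_cases hex : ∃ w : ℤ, (∀ p ∈ t, ((p : ℕ) : ℤ) ∣ w + i) ∧ (∀ p ∈ t', ((p : ℕ) : ℤ) ∣ w + j)
  · obtain ⟨w, hw1, hw2⟩ := hex
    have hsub : t ∪ t' ⊆ Q := union_subset ht ht'
    have h1 : (fun y => ind t (y + i) * ind t' (y + j)) =
        fun y => if ((∏ p ∈ t ∪ t', p : ℕ) : ℤ) ∣ y - w then 1 else 0 := by
      ext y
      have h2 : ((∏ p ∈ t ∪ t', p : ℕ) : ℤ) ∣ y - w ↔
          (∀ p ∈ t, ((p : ℕ) : ℤ) ∣ y + i) ∧ (∀ p ∈ t', ((p : ℕ) : ℤ) ∣ y + j) := by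
        constructor
        · intro h3
          have h4 : ∀ p ∈ t ∪ t', ((p : ℕ) : ℤ) ∣ y - w := by
            intro p hp
            refine dvd_trans ?_ h3
            exact_mod_cast dvd_prod_of_mem (fun p => p) hp
          constructor
          · intro p hp
            exact (dvd_shift p y w i (h4 p (mem_union_left _ hp))).2 (hw1 p hp)
          · intro p hp
            exact (dvd_shift p y w j (h4 p (mem_union_right _ hp))).2 (hw2 p hp)
        · rintro ⟨h3, h4⟩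
          rw [Int.natCast_dvd]
          apply Finset.prod_primes_dvd
          · intro p hp
            exact (hQ p (hsub hp)).prime
          · intro p hp
            rw [← Int.natCast_dvd]
            rw [mem_union] at hp
            rcases hp with hp | hp
            · have := dvd_sub (h3 p hp) (hw1 p hp)
              simpa using this
            · have := dvd_sub (h4 p hp) (hw2 p hp)
              simpa using this
      unfold ind
      by_cases h5 : ((∏ p ∈ t ∪ t', p : ℕ) : ℤ) ∣ y - w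
      · rw [if_pos h5, if_pos (h2.1 h5).1, if_pos (h2.1 h5).2, one_mul]
      · rw [if_neg h5]
        by_cases h6 : ∀ p ∈ t, ((p : ℕ) : ℤ) ∣ y + i
        · have h7 : ¬ ∀ p ∈ t', ((p : ℕ) : ℤ) ∣ y + j := fun h7 => h5 (h2.2 ⟨h6, h7⟩)
          rw [if_neg h7, mul_zero]
        · rw [if_neg h6, zero_mul]
    rw [h1]
    apply dev_ap
    · exact prod_pos fun p hp => (hQ p (hsub hp)).pos
    · exact prod_dvd_prod_of_subset _ _ _ hsub
    · exact PP_pos Q hQ
    · exact hAB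
  · have h1 : (fun y => ind t (y + i) * ind t' (y + j)) = fun _ => (0 : ℝ) := by
      ext y
      unfold ind
      by_cases h6 : ∀ p ∈ t, ((p : ℕ) : ℤ) ∣ y + i
      · have h7 : ¬ ∀ p ∈ t', ((p : ℕ) : ℤ) ∣ y + j := fun h7 => hex ⟨y, h6, h7⟩
        rw [if_neg h7, mul_zero]
      · rw [if_neg h6, zero_mul]
    rw [h1, dev_const _ (PP_pos Q hQ) A B hAB]
    simp

lemma TT_eq (Q : Finset ℕ) (r h : ℕ) (y : ℤ) :
    TT Q r h y = ∑ z ∈ range h ×ˢ Pw Q r, (-1 : ℝ) ^ z.2.card * ind z.2 (y + ((z.1 : ℤ) + 1)) := by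
  rw [TT, sum_product]
  rfl

lemma dev_TT_sq (Q : Finset ℕ) (hQ : ∀ p ∈ Q, p.Prime) (r h : ℕ) (A B : ℤ) (hAB : A ≤ B) :
    |dev (PP Q) A B (fun y => TT Q r h y ^ 2)| ≤ ((h : ℝ) * (Pw Q r).card) ^ 2 := by
  have h1 : (fun y => TT Q r h y ^ 2) = fun y => ∑ z ∈ range h ×ˢ Pw Q r, ∑ z' ∈ range h ×ˢ Pw Q r,
      ((-1 : ℝ) ^ z.2.card * (-1 : ℝ) ^ z'.2.card) *
        (ind z.2 (y + ((z.1 : ℤ) + 1)) * ind z'.2 (y + ((z'.1 : ℤ) + 1))) := by
    ext y
    rw [TT_eq, sq, sum_mul_sum]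
    apply sum_congr rfl
    intro z _
    apply sum_congr rfl
    intro z' _
    ring
  rw [h1, dev_sum]
  refine (abs_sum_le_sum_abs _ _).trans ?_
  have h2 : ∀ z ∈ range h ×ˢ Pw Q r, |dev (PP Q) A B (fun y => ∑ z' ∈ range h ×ˢ Pw Q r,
      ((-1 : ℝ) ^ z.2.card * (-1 : ℝ) ^ z'.2.card) *
        (ind z.2 (y + ((z.1 : ℤ) + 1)) * ind z'.2 (y + ((z'.1 : ℤ) + 1))))| ≤
          (h : ℝ) * (Pw Q r).card := by
    intro z hz
    rw [dev_sum]
    refine (abs_sum_le_sum_abs _ _).trans ?_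
    have h3 : ∀ z' ∈ range h ×ˢ Pw Q r, |dev (PP Q) A B (fun y =>
      ((-1 : ℝ) ^ z.2.card * (-1 : ℝ) ^ z'.2.card) *
        (ind z.2 (y + ((z.1 : ℤ) + 1)) * ind z'.2 (y + ((z'.1 : ℤ) + 1))))| ≤ 1 := by
      intro z' hz'
      rw [dev_const_mul, abs_mul, abs_mul, abs_pow, abs_pow, abs_neg, abs_one, one_pow, one_pow,
        one_mul, one_mul]
      rw [mem_product, Pw, mem_filter, mem_powerset] at hz hz'
      exact dev_ind_ind Q hQ _ _ hz.2.1 hz'.2.1 A B hAB _ _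
    calc ∑ z' ∈ range h ×ˢ Pw Q r, |dev (PP Q) A B (fun y =>
      ((-1 : ℝ) ^ z.2.card * (-1 : ℝ) ^ z'.2.card) *
        (ind z.2 (y + ((z.1 : ℤ) + 1)) * ind z'.2 (y + ((z'.1 : ℤ) + 1))))|
        ≤ ∑ z' ∈ range h ×ˢ Pw Q r, (1 : ℝ) := sum_le_sum h3
      _ = (h : ℝ) * (Pw Q r).card := by
        rw [sum_const, card_product, card_range, nsmul_eq_mul, mul_one]
        push_cast
        ring
  calc ∑ z ∈ range h ×ˢ Pw Q r, |dev (PP Q) A B (fun y => ∑ z' ∈ range h ×ˢ Pw Q r,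
      ((-1 : ℝ) ^ z.2.card * (-1 : ℝ) ^ z'.2.card) *
        (ind z.2 (y + ((z.1 : ℤ) + 1)) * ind z'.2 (y + ((z'.1 : ℤ) + 1))))|
      ≤ ∑ z ∈ range h ×ˢ Pw Q r, (h : ℝ) * (Pw Q r).card := sum_le_sum h2
    _ = ((h : ℝ) * (Pw Q r).card) ^ 2 := by
      rw [sum_const, card_product, card_range, nsmul_eq_mul]
      push_cast
      ring

lemma dev_TT (Q : Finset ℕ) (hQ : ∀ p ∈ Q, p.Prime) (r h : ℕ) (A B : ℤ) (hAB : A ≤ B) :
    |dev (PP Q) A B (fun y => TT Q r h y)| ≤ (h : ℝ) * (Pw Q r).card := by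
  have h1 : (fun y => TT Q r h y) = fun y => ∑ z ∈ range h ×ˢ Pw Q r,
      (-1 : ℝ) ^ z.2.card * (ind z.2 (y + ((z.1 : ℤ) + 1)) * ind ∅ (y + 0)) := by
    ext y
    rw [TT_eq]
    apply sum_congr rfl
    intro z _
    simp [ind]
  rw [h1, dev_sum]
  refine (abs_sum_le_sum_abs _ _).trans ?_
  have h3 : ∀ z ∈ range h ×ˢ Pw Q r, |dev (PP Q) A B (fun y =>
      (-1 : ℝ) ^ z.2.card * (ind z.2 (y + ((z.1 : ℤ) + 1)) * ind ∅ (y + 0)))| ≤ 1 := by
    intro z hz
    rw [dev_const_mul, abs_mul, abs_pow, abs_neg, abs_one, one_pow, one_mul]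
    rw [mem_product, Pw, mem_filter, mem_powerset] at hz
    exact dev_ind_ind Q hQ _ _ hz.2.1 (empty_subset _) A B hAB _ _
  calc ∑ z ∈ range h ×ˢ Pw Q r, |dev (PP Q) A B (fun y =>
      (-1 : ℝ) ^ z.2.card * (ind z.2 (y + ((z.1 : ℤ) + 1)) * ind ∅ (y + 0)))|
      ≤ ∑ z ∈ range h ×ˢ Pw Q r, (1 : ℝ) := sum_le_sum h3
    _ = (h : ℝ) * (Pw Q r).card := by
      rw [sum_const, card_product, card_range, nsmul_eq_mul, mul_one]
      push_cast
      ring

/-- the mean square of the truncation error -/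
noncomputable def kap (Q : Finset ℕ) (r : ℕ) (K : ℝ) : ℝ :=
  K⁻¹ ^ r * ∏ p ∈ Q, (1 + (4 * K - 1) / (p : ℝ))

lemma av_err (Q : Finset ℕ) (hQ : ∀ p ∈ Q, p.Prime) (r : ℕ) (hr : Even r) (K : ℝ) (hK : 1 ≤ K)
    (i : ℤ) : av (PP Q) (fun y => (SS Q r (y + i) - cop Q (y + i)) ^ 2) ≤ kap Q r K := by
  have h1 : av (PP Q) (fun y => (SS Q r (y + i) - cop Q (y + i)) ^ 2) ≤
      av (PP Q) (fun y => K⁻¹ ^ r * ∏ p ∈ Q, (if ((p : ℕ) : ℤ) ∣ y + i then 4 * K else 1)) := by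
    apply av_mono
    intro y
    exact err_sq Q r hr K hK (y + i)
  refine h1.trans (le_of_eq ?_)
  rw [av_const_mul, PP, av_prod Q hQ (fun p y => if ((p : ℕ) : ℤ) ∣ y + i then 4 * K else 1), kap]
  · congr 1
    apply prod_congr rfl
    intro p hp
    have hp0 := (hQ p hp).pos
    have h2 : (fun y : ℤ => if ((p : ℕ) : ℤ) ∣ y + i then 4 * K else 1) =
        fun y : ℤ => 1 + (4 * K - 1) * (if ((p : ℕ) : ℤ) ∣ y + i then (1 : ℝ) else 0) := by
      ext y
      split_ifs <;> ring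
    rw [h2, av_add, av_const p hp0, av_const_mul, av_dvd p hp0]
    ring
  · intro p _ y z hyz
    simp only [dvd_shift p y z i hyz]

lemma kap_nonneg (Q : Finset ℕ) (r : ℕ) (K : ℝ) (hK : 1 ≤ K) : 0 ≤ kap Q r K := by
  unfold kap
  apply mul_nonneg
  · positivity
  · apply prod_nonneg
    intro p _
    have : 0 ≤ (4 * K - 1) / (p : ℝ) := div_nonneg (by linarith) (by positivity)
    linarith

lemma av_TT (Q : Finset ℕ) (hQ : ∀ p ∈ Q, p.Prime) (r : ℕ) (hr : Even r) (h : ℕ) (K : ℝ) (hK : 1 ≤ K) :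
    av (PP Q) (fun y => (TT Q r h y - rho Q * h) ^ 2) ≤
      2 * (rho Q * h) + 2 * ((h : ℝ) ^ 2 * kap Q r K) := by
  have h1 : ∀ y, (TT Q r h y - rho Q * h) ^ 2 ≤ 2 * (CC Q h y - rho Q * h) ^ 2 +
      2 * ((h : ℝ) * ∑ i ∈ range h, (SS Q r (y + ((i : ℤ) + 1)) - cop Q (y + ((i : ℤ) + 1))) ^ 2) := by
    intro y
    have h2 : (∑ i ∈ range h, (SS Q r (y + ((i : ℤ) + 1)) - cop Q (y + ((i : ℤ) + 1)))) ^ 2 ≤
        (h : ℝ) * ∑ i ∈ range h, (SS Q r (y + ((i : ℤ) + 1)) - cop Q (y + ((i : ℤ) + 1))) ^ 2 := by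
      have := sq_sum_le_card_mul_sum_sq (s := range h)
        (f := fun i : ℕ => (SS Q r (y + ((i : ℤ) + 1)) - cop Q (y + ((i : ℤ) + 1))))
      rwa [card_range] at this
    have h3 : TT Q r h y = CC Q h y +
        ∑ i ∈ range h, (SS Q r (y + ((i : ℤ) + 1)) - cop Q (y + ((i : ℤ) + 1))) := by
      rw [sum_sub_distrib, TT, CC]
      ring
    rw [h3]
    nlinarith [sq_nonneg ((CC Q h y - rho Q * h) -
      ∑ i ∈ range h, (SS Q r (y + ((i : ℤ) + 1)) - cop Q (y + ((i : ℤ) + 1))))]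
  refine (av_mono _ _ _ h1).trans ?_
  rw [av_add, av_const_mul, av_const_mul, av_const_mul, av_sum]
  have h4 : av (PP Q) (fun y => (CC Q h y - rho Q * h) ^ 2) ≤ rho Q * h := by
    have h5 : (fun y => (CC Q h y - rho Q * h) ^ 2) =
        fun y => (CC Q h y ^ 2 - (2 * (rho Q * h)) * CC Q h y) + (rho Q * h) ^ 2 := by
      ext y
      ring
    rw [h5, av_add, av_sub, av_const_mul, av_CC Q hQ, av_const _ (PP_pos Q hQ)]
    have := av_CC_sq Q hQ h
    nlinarith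
  have h6 : ∑ i ∈ range h, av (PP Q) (fun y =>
      (SS Q r (y + ((i : ℤ) + 1)) - cop Q (y + ((i : ℤ) + 1))) ^ 2) ≤ h * kap Q r K := by
    calc ∑ i ∈ range h, av (PP Q) (fun y =>
        (SS Q r (y + ((i : ℤ) + 1)) - cop Q (y + ((i : ℤ) + 1))) ^ 2)
        ≤ ∑ i ∈ range h, kap Q r K := sum_le_sum fun i _ => av_err Q hQ r hr K hK _
      _ = h * kap Q r K := by rw [sum_const, card_range, nsmul_eq_mul]
  have h7 : (h : ℝ) * ∑ i ∈ range h, av (PP Q) (fun y =>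
      (SS Q r (y + ((i : ℤ) + 1)) - cop Q (y + ((i : ℤ) + 1))) ^ 2) ≤ (h : ℝ) * (h * kap Q r K) :=
    mul_le_mul_of_nonneg_left h6 (by positivity)
  nlinarith

/-- **windows with too many rough numbers are rare in every interval** -/
lemma count_bad (Q : Finset ℕ) (hQ : ∀ p ∈ Q, p.Prime) (r : ℕ) (hr : Even r) (h : ℕ) (K : ℝ)
    (hK : 1 ≤ K) (A B : ℤ) (hAB : A ≤ B) :
    (((Ioc A B).filter (fun y => 2 * (rho Q * h) < CC Q h y)).card : ℝ) * (rho Q * h) ^ 2 ≤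
      ((B : ℝ) - A) * (2 * (rho Q * h) + 2 * ((h : ℝ) ^ 2 * kap Q r K)) +
        3 * ((h : ℝ) * (Pw Q r).card) ^ 2 := by
  have hρ := rho_pos Q hQ
  have hρ1 := rho_le_one Q hQ
  have h1 : (((Ioc A B).filter (fun y => 2 * (rho Q * h) < CC Q h y)).card : ℝ) * (rho Q * h) ^ 2 ≤
      ∑ y ∈ Ioc A B, (TT Q r h y - rho Q * h) ^ 2 := by
    calc (((Ioc A B).filter (fun y => 2 * (rho Q * h) < CC Q h y)).card : ℝ) * (rho Q * h) ^ 2
        = ∑ y ∈ (Ioc A B).filter (fun y => 2 * (rho Q * h) < CC Q h y), (rho Q * h) ^ 2 := by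
          rw [sum_const, nsmul_eq_mul]
      _ ≤ ∑ y ∈ (Ioc A B).filter (fun y => 2 * (rho Q * h) < CC Q h y), (TT Q r h y - rho Q * h) ^ 2 := by
          apply sum_le_sum
          intro y hy
          rw [mem_filter] at hy
          have h2 : CC Q h y ≤ TT Q r h y := sum_le_sum fun i _ => cop_le_SS Q r hr _
          have h3 : 0 ≤ rho Q * h := by positivity
          apply pow_le_pow_left₀ h3
          linarith [hy.2]
      _ ≤ ∑ y ∈ Ioc A B, (TT Q r h y - rho Q * h) ^ 2 := by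
          apply sum_le_sum_of_subset_of_nonneg (filter_subset _ _)
          intro y _ _
          positivity
  have h2 : ∑ y ∈ Ioc A B, (TT Q r h y - rho Q * h) ^ 2 =
      dev (PP Q) A B (fun y => (TT Q r h y - rho Q * h) ^ 2) +
        ((B : ℝ) - A) * av (PP Q) (fun y => (TT Q r h y - rho Q * h) ^ 2) := by
    unfold dev
    ring
  have h3 : dev (PP Q) A B (fun y => (TT Q r h y - rho Q * h) ^ 2) ≤
      3 * ((h : ℝ) * (Pw Q r).card) ^ 2 := by
    have h4 : (fun y => (TT Q r h y - rho Q * h) ^ 2) =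
        fun y => (TT Q r h y ^ 2 + (-(2 * (rho Q * h))) * TT Q r h y) + (rho Q * h) ^ 2 := by
      ext y
      ring
    rw [h4, dev_add, dev_add, dev_const_mul, dev_const _ (PP_pos Q hQ) A B hAB]
    have h5 := (abs_le.1 (dev_TT_sq Q hQ r h A B hAB)).2
    have h6 := (abs_le.1 (dev_TT Q hQ r h A B hAB)).1
    have h7 : (1 : ℝ) ≤ (Pw Q r).card := by
      have : 0 < (Pw Q r).card := by
        rw [card_pos]
        refine ⟨∅, ?_⟩
        simp [Pw]
      exact_mod_cast this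
    have h8 : rho Q * h ≤ (h : ℝ) * (Pw Q r).card := by
      calc rho Q * h ≤ 1 * h := by gcongr
        _ = h * 1 := by ring
        _ ≤ (h : ℝ) * (Pw Q r).card := by gcongr
    have h9 : 0 ≤ rho Q * h := by positivity
    have h10 : 2 * (rho Q * h) * (-(dev (PP Q) A B fun y => TT Q r h y)) ≤
        2 * ((h : ℝ) * (Pw Q r).card) * ((h : ℝ) * (Pw Q r).card) := by
      calc 2 * (rho Q * h) * (-(dev (PP Q) A B fun y => TT Q r h y))
          ≤ 2 * (rho Q * h) * ((h : ℝ) * (Pw Q r).card) := by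
            apply mul_le_mul_of_nonneg_left _ (by positivity)
            linarith
        _ ≤ 2 * ((h : ℝ) * (Pw Q r).card) * ((h : ℝ) * (Pw Q r).card) := by gcongr
    nlinarith
  have h4 := av_TT Q hQ r hr h K hK
  have h5 : (0 : ℝ) ≤ (B : ℝ) - A := by
    have : (A : ℝ) ≤ B := by exact_mod_cast hAB
    linarith
  have h6 := mul_le_mul_of_nonneg_left h4 h5
  linarith

end Pool.Agent.H541.LL
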