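import Pool.Agent.H541.LL.Av

set_option autoImplicit false

/-!
Sums over intervals compared with averages over a period.
-/

namespace Pool.Agent.H541.LL

open Finset

lemma sum_range_int (P : ℕ) (F : ℤ → ℝ) :
    ∑ y ∈ range P, F (y : ℤ) = ∑ y ∈ Ico (0 : ℤ) P, F y := by
  apply sum_nbij (fun y : ℕ => (y : ℤ))
  · intro y hy
    rw [mem_range] at hy
    rw [mem_Ico]
    exact ⟨by positivity, by exact_mod_cast hy⟩
  · intro y _ z _ h
    simp only at h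
    exact_mod_cast h
  · intro y hy
    rw [coe_Ico, Set.mem_Ico] at hy
    refine ⟨y.toNat, ?_, ?_⟩
    · rw [mem_coe, mem_range]
      omega
    · simp only
      omega
  · intro y _
    rfl

/-- deviation of the sum over an interval from the average -/
noncomputable def dev (P : ℕ) (A B : ℤ) (F : ℤ → ℝ) : ℝ :=
  ∑ y ∈ Ioc A B, F y - ((B : ℝ) - A) * av P F

lemma av_const_mul (P : ℕ) (c : ℝ) (F : ℤ → ℝ) : av P (fun y => c * F y) = c * av P F := by
  unfold av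
  rw [← mul_sum, mul_div_assoc]

lemma av_sum {ι : Type*} (P : ℕ) (s : Finset ι) (F : ι → ℤ → ℝ) :
    av P (fun y => ∑ i ∈ s, F i y) = ∑ i ∈ s, av P (F i) := by
  unfold av
  rw [sum_comm, sum_div]

lemma av_add (P : ℕ) (F G : ℤ → ℝ) : av P (fun y => F y + G y) = av P F + av P G := by
  unfold av
  rw [sum_add_distrib, add_div]

lemma av_sub (P : ℕ) (F G : ℤ → ℝ) : av P (fun y => F y - G y) = av P F - av P G := by
  unfold av
  rw [sum_sub_distrib, sub_div]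

lemma av_const (P : ℕ) (hP : 0 < P) (c : ℝ) : av P (fun _ => c) = c := by
  unfold av
  rw [sum_const, card_range, nsmul_eq_mul]
  have : (P : ℝ) ≠ 0 := by positivity
  field_simp

lemma av_mono (P : ℕ) (F G : ℤ → ℝ) (h : ∀ y, F y ≤ G y) : av P F ≤ av P G := by
  unfold av
  gcongr with y _
  exact h _

lemma dev_const_mul (P : ℕ) (A B : ℤ) (c : ℝ) (F : ℤ → ℝ) :
    dev P A B (fun y => c * F y) = c * dev P A B F := by
  unfold dev
  rw [← mul_sum, av_const_mul]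
  ring

lemma dev_sum {ι : Type*} (P : ℕ) (A B : ℤ) (s : Finset ι) (F : ι → ℤ → ℝ) :
    dev P A B (fun y => ∑ i ∈ s, F i y) = ∑ i ∈ s, dev P A B (F i) := by
  unfold dev
  rw [sum_comm, av_sum, sum_sub_distrib, mul_sum]

lemma dev_add (P : ℕ) (A B : ℤ) (F G : ℤ → ℝ) :
    dev P A B (fun y => F y + G y) = dev P A B F + dev P A B G := by
  unfold dev
  rw [sum_add_distrib, av_add]
  ring

lemma dev_const (P : ℕ) (hP : 0 < P) (A B : ℤ) (hAB : A ≤ B) (c : ℝ) : dev P A B (fun _ => c) = 0 := by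
  unfold dev
  rw [sum_const, Int.card_Ioc, av_const P hP, nsmul_eq_mul]
  have : (((B - A).toNat : ℕ) : ℝ) = (B : ℝ) - A := by
    have h1 : (((B - A).toNat : ℕ) : ℤ) = B - A := Int.toNat_of_nonneg (by omega)
    have h2 : ((((B - A).toNat : ℕ) : ℤ) : ℝ) = ((B - A : ℤ) : ℝ) := by rw [h1]
    push_cast at h2
    exact h2
  rw [this]
  ring

lemma av_ap (P m : ℕ) (hm : 0 < m) (hmP : m ∣ P) (hP : 0 < P) (w : ℤ) :
    av P (fun y => if (m : ℤ) ∣ y - w then 1 else 0) = 1 / m := by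
  obtain ⟨k, rfl⟩ := hmP
  unfold av
  rw [sum_range_int (m * k) (fun y => if (m : ℤ) ∣ y - w then 1 else 0), ← sum_filter, sum_const,
    nsmul_eq_mul, mul_one]
  have hm0 : (0 : ℤ) < m := by exact_mod_cast hm
  have hk : 0 < k := by
    rcases Nat.eq_zero_or_pos k with h0 | h0
    · subst h0
      simp at hP
    · exact h0
  have h1 : ((Ico (0 : ℤ) ((m * k : ℕ) : ℤ)).filter (fun y => (m : ℤ) ∣ y - w)).card = k := by
    have h2 := Int.Ico_filter_modEq_card (0 : ℤ) ((m * k : ℕ) : ℤ) hm0 w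
    have h3 : (Ico (0 : ℤ) ((m * k : ℕ) : ℤ)).filter (fun y => (m : ℤ) ∣ y - w) =
        (Ico (0 : ℤ) ((m * k : ℕ) : ℤ)).filter (fun y => y ≡ w [ZMOD m]) := by
      apply filter_congr
      intro y _
      rw [Int.modEq_comm, Int.modEq_iff_dvd]
    rw [h3]
    have h4 : ⌈((((m * k : ℕ) : ℤ) : ℚ) - (w : ℚ)) / ((m : ℤ) : ℚ)⌉ =
        k + ⌈(((0 : ℤ) : ℚ) - (w : ℚ)) / ((m : ℤ) : ℚ)⌉ := by
      rw [← Int.ceil_natCast_add]
      congr 1
      have : ((m : ℤ) : ℚ) ≠ 0 := by exact_mod_cast hm.ne'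
      field_simp
      push_cast
      ring
    rw [h4] at h2
    have h5 : (k : ℤ) + ⌈(((0 : ℤ) : ℚ) - (w : ℚ)) / ((m : ℤ) : ℚ)⌉ -
        ⌈(((0 : ℤ) : ℚ) - (w : ℚ)) / ((m : ℤ) : ℚ)⌉ = k := by ring
    rw [h5, max_eq_left (by positivity)] at h2
    exact_mod_cast h2
  rw [h1]
  push_cast
  have : (m : ℝ) ≠ 0 := by positivity
  have : (k : ℝ) ≠ 0 := by positivity
  field_simp

lemma dev_ap (P m : ℕ) (hm : 0 < m) (hmP : m ∣ P) (hP : 0 < P) (A B : ℤ) (hAB : A ≤ B) (w : ℤ) :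
    |dev P A B (fun y => if (m : ℤ) ∣ y - w then 1 else 0)| ≤ 1 := by
  unfold dev
  rw [av_ap P m hm hmP hP w, ← sum_filter, sum_const, nsmul_eq_mul, mul_one]
  have hm0 : (0 : ℤ) < m := by exact_mod_cast hm
  have hmr : (0 : ℝ) < m := by exact_mod_cast hm
  have hmq : (0 : ℚ) < m := by exact_mod_cast hm
  have h2 := Int.Ioc_filter_modEq_card A B hm0 w
  have h3 : (Ioc A B).filter (fun y => (m : ℤ) ∣ y - w) =
      (Ioc A B).filter (fun y => y ≡ w [ZMOD m]) := by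
    apply filter_congr
    intro y _
    rw [Int.modEq_comm, Int.modEq_iff_dvd]
  rw [h3]
  have h4 : ⌊((A : ℚ) - w) / ((m : ℤ) : ℚ)⌋ ≤ ⌊((B : ℚ) - w) / ((m : ℤ) : ℚ)⌋ := by
    apply Int.floor_le_floor
    have : (A : ℚ) ≤ B := by exact_mod_cast hAB
    push_cast
    gcongr
  rw [max_eq_left (by omega)] at h2
  have h5 : (((((Ioc A B).filter (fun y => y ≡ w [ZMOD m])).card : ℕ) : ℚ)) =
      (⌊((B : ℚ) - w) / ((m : ℤ) : ℚ)⌋ : ℚ) - (⌊((A : ℚ) - w) / ((m : ℤ) : ℚ)⌋ : ℚ) := by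
    exact_mod_cast h2
  have h6 := Int.floor_le (((B : ℚ) - w) / ((m : ℤ) : ℚ))
  have h7 := Int.lt_floor_add_one (((B : ℚ) - w) / ((m : ℤ) : ℚ))
  have h8 := Int.floor_le (((A : ℚ) - w) / ((m : ℤ) : ℚ))
  have h9 := Int.lt_floor_add_one (((A : ℚ) - w) / ((m : ℤ) : ℚ))
  have h10 : ((B : ℚ) - w) / ((m : ℤ) : ℚ) - ((A : ℚ) - w) / ((m : ℤ) : ℚ) = ((B : ℚ) - A) * (1 / m) := by
    push_cast
    field_simp
    ring
  have h11 : |(((((Ioc A B).filter (fun y => y ≡ w [ZMOD m])).card : ℕ) : ℚ)) -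
      ((B : ℚ) - A) * (1 / m)| ≤ 1 := by
    rw [abs_le, h5]
    constructor
    · linarith
    · linarith
  have h12 : ((|(((((Ioc A B).filter (fun y => y ≡ w [ZMOD m])).card : ℕ) : ℚ)) -
      ((B : ℚ) - A) * (1 / m)| : ℚ) : ℝ) ≤ ((1 : ℚ) : ℝ) := by exact_mod_cast h11
  push_cast at h12
  exact h12

end Pool.Agent.H541.LL
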