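import Pool.Agent.H541.LL.Content
import Pool.Agent.H541.LL.Count

set_option autoImplicit false

/-!
The bad events: geometry.
-/

namespace Pool.Agent.H541.LL

open Finset Metric
open scoped ENNReal

/-- number of the integers `a` coprime to the members of `Q` such that `[a, a + 1]` meets `[u, v]` -/
noncomputable def GG (Q : Finset ℕ) (u v : ℝ) : ℝ := ∑ a ∈ Finset.Icc ⌈u - 1⌉ ⌊v⌋, cop Q a

/-- the bad nodes -/
def RR {ι : Type} (Q : Finset ℕ) (s t : ℕ) (lam c : ι → ℝ) (N k : ℕ) : Prop :=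
  s + t ≤ N ∧ ∃ n, (2 : ℝ) ^ N / 2 < lam n ∧ lam n ≤ 2 ^ N ∧ ∃ a : ℤ, (∀ p ∈ Q, ¬ (p : ℤ) ∣ a) ∧
    ∃ θ ∈ DI N k, (a : ℝ) ≤ θ * lam n + c n ∧ θ * lam n + c n ≤ a + 1

/-- the exceptional nodes -/
def EE {ι : Type} (Q : Finset ℕ) (s t : ℕ) (lam c : ι → ℝ) (m j : ℕ) : Prop :=
  t ≤ m ∧ ∃ n, (2 : ℝ) ^ (m + s) / 2 < lam n ∧ lam n ≤ 2 ^ (m + s) ∧
    2 * (rho Q * ((2 ^ (s + 1) + 2 : ℕ) : ℝ)) <
      GG Q ((j : ℝ) / 2 ^ m * lam n + c n) (((j : ℝ) + 1) / 2 ^ m * lam n + c n)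

lemma DI_anc (m s N k j : ℕ) (hN : N = m + s) (hk : k / 2 ^ s = j) : DI N k ⊆ DI m j := by
  subst hN
  subst hk
  intro θ hθ
  obtain ⟨h1, h2⟩ := hθ
  have hp : 0 < 2 ^ s := by positivity
  have hk1 : (2 : ℝ) ^ s * ((k / 2 ^ s : ℕ) : ℝ) ≤ k := by
    have : 2 ^ s * (k / 2 ^ s) ≤ k := Nat.mul_div_le _ _
    exact_mod_cast this
  have hk2 : (k : ℝ) + 1 ≤ 2 ^ s * (((k / 2 ^ s : ℕ) : ℝ) + 1) := by
    have h3 : k < 2 ^ s * (k / 2 ^ s + 1) := Nat.lt_mul_div_succ k hp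
    have : k + 1 ≤ 2 ^ s * (k / 2 ^ s + 1) := h3
    exact_mod_cast this
  have h2m : (0 : ℝ) < 2 ^ m := by positivity
  have h2s : (0 : ℝ) < 2 ^ s := by positivity
  rw [pow_add] at h1 h2
  constructor
  · refine le_trans ?_ h1
    rw [div_le_div_iff₀ h2m (by positivity)]
    nlinarith
  · refine le_trans h2 ?_
    rw [div_le_div_iff₀ (by positivity) h2m]
    nlinarith

/-- a set of numbers of diameter at most two has at most three elements -/
lemma card_three (F : Finset ℕ) (h : ∀ k ∈ F, ∀ l ∈ F, l ≤ k + 2) : F.card ≤ 3 := by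
  rcases F.eq_empty_or_nonempty with h0 | h0
  · rw [h0]
    simp
  · have h1 : F ⊆ Finset.Icc (F.min' h0) (F.min' h0 + 2) := by
      intro k hk
      rw [Finset.mem_Icc]
      exact ⟨F.min'_le k hk, h _ (F.min'_mem h0) k hk⟩
    calc F.card ≤ (Finset.Icc (F.min' h0) (F.min' h0 + 2)).card := card_le_card h1
      _ = 3 := by
        rw [Nat.card_Icc]
        omega

lemma cop_one_iff (Q : Finset ℕ) (a : ℤ) : cop Q a = if ∀ p ∈ Q, ¬ (p : ℤ) ∣ a then 1 else 0 := rfl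

open Classical in
lemma R_count {ι : Type} (Q : Finset ℕ) (hQ : ∀ p ∈ Q, p.Prime) (s t M : ℕ) (hs : 1 ≤ s)
    (lam c : ι → ℝ) (hM : ∀ x : ℝ, 0 < x → ∃ F : Finset ι, F.card ≤ M ∧ ∀ n, x < lam n → lam n ≤ 2 * x → n ∈ F)
    (m j N : ℕ) (hN : N = m + s) (hE : ¬ EE Q s t lam c m j) :
    (((range (2 ^ N)).filter (fun k => k / 2 ^ s = j ∧ RR Q s t lam c N k)).card : ℝ) ≤
      (18 * M * rho Q) * 2 ^ s := by
  have hρ := rho_pos Q hQ
  rcases Nat.lt_or_ge m t with hmt | hmt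
  · have : (range (2 ^ N)).filter (fun k => k / 2 ^ s = j ∧ RR Q s t lam c N k) = ∅ := by
      apply filter_false_of_mem
      rintro k _ ⟨-, h1, -⟩
      omega
    rw [this]
    simp only [card_empty, Nat.cast_zero]
    positivity
  obtain ⟨F, hF, hFn⟩ := hM ((2 : ℝ) ^ N / 2) (by positivity)
  set T := F.filter (fun n => (2 : ℝ) ^ N / 2 < lam n ∧ lam n ≤ 2 ^ N) with hT
  have hTcard : T.card ≤ M := (card_filter_le _ _).trans hF
  set u : ι → ℝ := fun n => (j : ℝ) / 2 ^ m * lam n + c n with hu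
  set v : ι → ℝ := fun n => ((j : ℝ) + 1) / 2 ^ m * lam n + c n with hv
  set W : ι → Finset ℤ := fun n => (Finset.Icc ⌈u n - 1⌉ ⌊v n⌋).filter (fun a => ∀ p ∈ Q, ¬ (p : ℤ) ∣ a)
    with hW
  have hWG : ∀ n, ((W n).card : ℝ) = GG Q (u n) (v n) := by
    intro n
    rw [GG]
    simp only [cop_one_iff]
    rw [← sum_filter, sum_const, nsmul_eq_mul, mul_one]
  have hWle : ∀ n ∈ T, ((W n).card : ℝ) ≤ 2 * (rho Q * ((2 ^ (s + 1) + 2 : ℕ) : ℝ)) := by
    intro n hn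
    rw [hWG]
    by_contra hcon
    push Not at hcon
    apply hE
    rw [hT, mem_filter] at hn
    refine ⟨hmt, n, ?_, ?_, hcon⟩
    · rw [← hN]
      exact hn.2.1
    · rw [← hN]
      exact hn.2.2
  set S := (range (2 ^ N)).filter (fun k => k / 2 ^ s = j ∧ RR Q s t lam c N k) with hS
  -- choose a witness
  rcases S.eq_empty_or_nonempty with hSe | ⟨k0, hk0⟩
  · rw [hSe]
    simp only [card_empty, Nat.cast_zero]
    positivity
  have hι : Nonempty ι := by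
    rw [hS, mem_filter] at hk0
    obtain ⟨-, -, -, n, -⟩ := hk0
    exact ⟨n⟩
  have hch : ∀ k, ∃ z : (_ : ι) × ℤ, k ∈ S → (z ∈ T.sigma W ∧
      ∃ θ ∈ DI N k, (z.2 : ℝ) ≤ θ * lam z.1 + c z.1 ∧ θ * lam z.1 + c z.1 ≤ z.2 + 1) := by
    intro k
    by_cases hk : k ∈ S
    · rw [hS, mem_filter] at hk
      obtain ⟨hk1, hk2, hk3, n, hn1, hn2, a, ha, θ, hθ, h1, h2⟩ := hk
      refine ⟨⟨n, a⟩, fun _ => ⟨?_, θ, hθ, h1, h2⟩⟩
      have hlam : 0 < lam n := lt_trans (by positivity) hn1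
      rw [mem_sigma]
      refine ⟨?_, ?_⟩
      · rw [hT, mem_filter]
        exact ⟨hFn n hn1 (by linarith), hn1, hn2⟩
      · simp only [hW, mem_filter, mem_Icc]
        obtain ⟨h3, h4⟩ := DI_anc m s N k j hN hk2 hθ
        refine ⟨⟨?_, ?_⟩, ha⟩
        · rw [Int.ceil_le]
          have h5 : (j : ℝ) / 2 ^ m * lam n ≤ θ * lam n := mul_le_mul_of_nonneg_right h3 hlam.le
          simp only [hu]
          linarith
        · rw [Int.le_floor]
          have h5 : θ * lam n ≤ ((j : ℝ) + 1) / 2 ^ m * lam n := mul_le_mul_of_nonneg_right h4 hlam.le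
          simp only [hv]
          linarith
    · exact ⟨⟨hι.some, 0⟩, fun h => absurd h hk⟩
  choose f hf using hch
  have h1 : S.card ≤ 3 * (T.sigma W).card := by
    apply card_le_mul_card_image_of_maps_to (f := f)
    · intro k hk
      exact (hf k hk).1
    · rintro ⟨n, a⟩ hz
      rw [mem_sigma] at hz
      have hn : n ∈ T := hz.1
      rw [hT, mem_filter] at hn
      have hlam : 0 < lam n := lt_trans (by positivity) hn.2.1
      apply card_three
      intro k hk l hl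
      rw [mem_filter] at hk hl
      obtain ⟨-, θ, ⟨hθ1, hθ2⟩, h2, h3⟩ := hf k hk.1
      obtain ⟨-, τ, ⟨hτ1, hτ2⟩, h4, h5⟩ := hf l hl.1
      rw [hk.2] at h2 h3
      rw [hl.2] at h4 h5
      simp only at h2 h3 h4 h5
      by_contra hcon
      push Not at hcon
      have h6 : (k : ℝ) + 3 ≤ l := by
        have : k + 3 ≤ l := by omega
        exact_mod_cast this
      have h2N : (0 : ℝ) < 2 ^ N := by positivity
      rw [div_le_iff₀ h2N] at hτ1
      rw [le_div_iff₀ h2N] at hθ2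
      -- (τ - θ) 2^N ≥ 2, (τ - θ) lam ≤ 1, lam > 2^N / 2
      have h7 : 2 ≤ (τ - θ) * 2 ^ N := by linarith
      have h8 : (τ - θ) * lam n ≤ 1 := by linarith
      have h9 : 0 < τ - θ := by
        by_contra hneg
        push Not at hneg
        nlinarith
      have h10 : (τ - θ) * (2 ^ N / 2) < (τ - θ) * lam n := mul_lt_mul_of_pos_left hn.2.1 h9
      linarith
  have h2 : ((T.sigma W).card : ℝ) ≤ M * (2 * (rho Q * ((2 ^ (s + 1) + 2 : ℕ) : ℝ))) := by
    rw [card_sigma]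
    push_cast
    calc ∑ n ∈ T, ((W n).card : ℝ) ≤ ∑ n ∈ T, (2 * (rho Q * ((2 ^ (s + 1) + 2 : ℕ) : ℝ))) :=
          sum_le_sum hWle
      _ = T.card * (2 * (rho Q * ((2 ^ (s + 1) + 2 : ℕ) : ℝ))) := by rw [sum_const, nsmul_eq_mul]
      _ ≤ M * (2 * (rho Q * ((2 ^ (s + 1) + 2 : ℕ) : ℝ))) := by gcongr
      _ = _ := by push_cast; ring
  have h3 : ((2 ^ (s + 1) + 2 : ℕ) : ℝ) ≤ 3 * 2 ^ s := by
    have h4 : (2 : ℝ) ≤ 2 ^ s := by
      calc (2 : ℝ) = 2 ^ 1 := by norm_num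
        _ ≤ 2 ^ s := pow_le_pow_right₀ (by norm_num) hs
    push_cast
    rw [pow_succ]
    linarith
  calc (S.card : ℝ) ≤ ((3 * (T.sigma W).card : ℕ) : ℝ) := by exact_mod_cast h1
    _ = 3 * ((T.sigma W).card : ℝ) := by push_cast; ring
    _ ≤ 3 * (M * (2 * (rho Q * ((2 ^ (s + 1) + 2 : ℕ) : ℝ)))) := by gcongr
    _ ≤ 3 * (M * (2 * (rho Q * (3 * 2 ^ s)))) := by gcongr
    _ = (18 * M * rho Q) * 2 ^ s := by ring

/-- the numbers coprime to the members of `Q` near a node are counted by every window near it -/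
lemma GG_le_CC (Q : Finset ℕ) (s : ℕ) (u H : ℝ) (hH : H ≤ 2 ^ s) (y : ℤ) (h1 : u - H - 2 < y)
    (h2 : (y : ℝ) ≤ u - 2) : GG Q u (u + H) ≤ CC Q (2 ^ (s + 1) + 2) y := by
  have hsub : Finset.Icc ⌈u - 1⌉ ⌊u + H⌋ ⊆
      (range (2 ^ (s + 1) + 2)).image (fun i : ℕ => y + ((i : ℤ) + 1)) := by
    intro a ha
    rw [mem_Icc, Int.ceil_le, Int.le_floor] at ha
    rw [mem_image]
    have h3 : (y : ℝ) + 1 ≤ a := by linarith [ha.1]
    have h4 : (a : ℝ) ≤ y + (2 * 2 ^ s + 2) := by linarith [ha.2]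
    have h5 : y + 1 ≤ a := by exact_mod_cast h3
    have h6 : a ≤ y + (2 * 2 ^ s + 2) := by exact_mod_cast h4
    refine ⟨(a - y - 1).toNat, ?_, ?_⟩
    · rw [mem_range, pow_succ]
      have h7 : (((a - y - 1).toNat : ℕ) : ℤ) = a - y - 1 := Int.toNat_of_nonneg (by omega)
      zify
      rw [h7]
      linarith
    · rw [Int.toNat_of_nonneg (by omega)]
      ring
  unfold GG CC
  refine (sum_le_sum_of_subset_of_nonneg hsub ?_).trans (le_of_eq ?_)
  · intro a _ _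
    rw [cop_one_iff]
    split_ifs <;> norm_num
  · rw [sum_image]
    intro i _ j _ hij
    simp only at hij
    omega

open Classical in
lemma X_count (Q : Finset ℕ) (s t N j : ℕ) (hs : 1 ≤ s) (lam c τ : ℝ) (h1 : (2 : ℝ) ^ (N + s) / 2 < lam)
    (h2 : lam ≤ 2 ^ (N + s)) : ∃ A B : ℤ, A ≤ B ∧ (B : ℝ) - A ≤ 2 ^ (s + t + 1) ∧
    (((range (2 ^ N)).filter (fun k => k / 2 ^ t = j ∧
      τ < GG Q ((k : ℝ) / 2 ^ N * lam + c) (((k : ℝ) + 1) / 2 ^ N * lam + c))).card : ℝ) * 2 ^ s ≤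
      2 * (((Ioc A B).filter (fun y => τ < CC Q (2 ^ (s + 1) + 2) y)).card : ℝ) := by
  set H : ℝ := lam / 2 ^ N with hH
  have h2N : (0 : ℝ) < 2 ^ N := by positivity
  have hH2 : H ≤ 2 ^ s := by
    rw [hH, div_le_iff₀ h2N]
    rw [pow_add] at h2
    linarith
  have hH1 : (2 : ℝ) ^ s / 2 < H := by
    rw [hH, lt_div_iff₀ h2N]
    rw [pow_add] at h1
    linarith
  have hH0 : 0 < H := lt_trans (by positivity) hH1
  set f : ℕ → ℤ := fun k => ⌊((k : ℝ) - 1) * H + c - 2⌋ with hf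
  have hfm : Monotone f := by
    intro k l hkl
    apply Int.floor_le_floor
    have : (k : ℝ) ≤ l := by exact_mod_cast hkl
    nlinarith
  set S := (range (2 ^ N)).filter (fun k => k / 2 ^ t = j ∧
      τ < GG Q ((k : ℝ) / 2 ^ N * lam + c) (((k : ℝ) + 1) / 2 ^ N * lam + c)) with hS
  have hSm : ∀ k ∈ S, j * 2 ^ t ≤ k ∧ k + 1 ≤ (j + 1) * 2 ^ t := by
    intro k hk
    rw [hS, mem_filter] at hk
    have hp : 0 < 2 ^ t := by positivity
    have h3 := hk.2.1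
    subst h3
    refine ⟨Nat.div_mul_le_self _ _, ?_⟩
    have := Nat.lt_mul_div_succ k hp
    rw [mul_comm]
    exact this
  refine ⟨f (j * 2 ^ t), f ((j + 1) * 2 ^ t), hfm (Nat.mul_le_mul_right _ (by omega)), ?_, ?_⟩
  · have h3 := Int.floor_le (((((j + 1) * 2 ^ t : ℕ) : ℝ) - 1) * H + c - 2)
    have h4 := Int.lt_floor_add_one ((((j * 2 ^ t : ℕ) : ℝ) - 1) * H + c - 2)
    have h5 : (1 : ℝ) ≤ 2 ^ (s + t) := one_le_pow₀ (by norm_num)
    have h6 : (2 : ℝ) ^ t * H ≤ 2 ^ (s + t) := by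
      rw [pow_add, mul_comm]
      gcongr
    have h7 : ((((j + 1) * 2 ^ t : ℕ) : ℝ) - 1) * H + c - 2 -
        ((((j * 2 ^ t : ℕ) : ℝ) - 1) * H + c - 2) = 2 ^ t * H := by
      push_cast
      ring
    simp only [hf]
    rw [pow_succ]
    linarith
  · -- disjoint intervals
    have hdis : (S : Set ℕ).PairwiseDisjoint (fun k => Ioc (f k) (f (k + 1))) := by
      intro k _ l _ hkl
      rw [Function.onFun, disjoint_left]
      intro y hy1 hy2
      rw [mem_Ioc] at hy1 hy2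
      rcases Nat.lt_or_gt_of_ne hkl with h | h
      · have := hfm (show k + 1 ≤ l by omega)
        omega
      · have := hfm (show l + 1 ≤ k by omega)
        omega
    have hsub : S.biUnion (fun k => Ioc (f k) (f (k + 1))) ⊆
        (Ioc (f (j * 2 ^ t)) (f ((j + 1) * 2 ^ t))).filter (fun y => τ < CC Q (2 ^ (s + 1) + 2) y) := by
      intro y hy
      rw [mem_biUnion] at hy
      obtain ⟨k, hk, hy⟩ := hy
      rw [mem_Ioc] at hy
      obtain ⟨h3, h4⟩ := hSm k hk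
      rw [mem_filter, mem_Ioc]
      refine ⟨⟨lt_of_le_of_lt (hfm h3) hy.1, hy.2.trans (hfm h4)⟩, ?_⟩
      have hk2 := (mem_filter.1 hk).2.2
      refine lt_of_lt_of_le hk2 ?_
      have e1 : (k : ℝ) / 2 ^ N * lam + c = k * H + c := by
        rw [hH]
        ring
      have e2 : ((k : ℝ) + 1) / 2 ^ N * lam + c = k * H + c + H := by
        rw [hH]
        ring
      rw [e1, e2]
      have h5 : ((k : ℝ) - 1) * H + c - 2 < y := by
        have h6 : f k < y := hy.1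
        simp only [hf] at h6
        exact Int.floor_lt.1 h6
      have h7 : (y : ℝ) ≤ (((k + 1 : ℕ) : ℝ) - 1) * H + c - 2 := by
        have h8 : y ≤ f (k + 1) := hy.2
        simp only [hf] at h8
        exact Int.le_floor.1 h8
      apply GG_le_CC Q s _ H hH2 y
      · linarith
      · push_cast at h7
        linarith
    have hcard := card_le_card hsub
    rw [card_biUnion (fun k hk l hl hkl => hdis hk hl hkl)] at hcard
    have hone : ∀ k ∈ S, 2 ^ (s - 1) ≤ (Ioc (f k) (f (k + 1))).card := by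
      intro k _
      rw [Int.card_Ioc]
      have h3 := Int.floor_le ((((k : ℕ) : ℝ) - 1) * H + c - 2)
      have h4 : f k + 2 ^ (s - 1) ≤ f (k + 1) := by
        simp only [hf]
        rw [Int.le_floor]
        push_cast
        have h5 : (2 : ℝ) ^ s / 2 = 2 ^ (s - 1) := by
          have : s = s - 1 + 1 := by omega
          rw [this, pow_succ]
          simp
        linarith
      have h6 : ((2 ^ (s - 1) : ℕ) : ℤ) ≤ f (k + 1) - f k := by
        push_cast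
        linarith
      omega
    have h3 : S.card * 2 ^ (s - 1) ≤ ((Ioc (f (j * 2 ^ t)) (f ((j + 1) * 2 ^ t))).filter
        (fun y => τ < CC Q (2 ^ (s + 1) + 2) y)).card := by
      refine le_trans ?_ hcard
      rw [← smul_eq_mul, ← sum_const]
      exact sum_le_sum hone
    have h4 : S.card * 2 ^ s ≤ 2 * ((Ioc (f (j * 2 ^ t)) (f ((j + 1) * 2 ^ t))).filter
        (fun y => τ < CC Q (2 ^ (s + 1) + 2) y)).card := by
      have h5 : 2 ^ s = 2 ^ (s - 1) * 2 := by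
        rw [← pow_succ]
        congr 1
        omega
      rw [h5]
      nlinarith
    exact_mod_cast h4

/-- the bound for the number of bad windows -/
noncomputable def Bd (Q : Finset ℕ) (s t r : ℕ) (K : ℝ) : ℝ :=
  ((2 : ℝ) ^ (s + t + 1) * (2 * (rho Q * ((2 ^ (s + 1) + 2 : ℕ) : ℝ)) +
    2 * (((2 ^ (s + 1) + 2 : ℕ) : ℝ) ^ 2 * kap Q r K)) +
    3 * (((2 ^ (s + 1) + 2 : ℕ) : ℝ) * (Pw Q r).card) ^ 2) / (rho Q * ((2 ^ (s + 1) + 2 : ℕ) : ℝ)) ^ 2

/-- the frequency of the exceptional nodes -/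
noncomputable def eta (Q : Finset ℕ) (s t M r : ℕ) (K : ℝ) : ℝ :=
  M * (2 * Bd Q s t r K) / 2 ^ (s + t)

lemma Bd_nonneg (Q : Finset ℕ) (hQ : ∀ p ∈ Q, p.Prime) (s t r : ℕ) (K : ℝ) (hK : 1 ≤ K) :
    0 ≤ Bd Q s t r K := by
  have hρ := rho_pos Q hQ
  have hκ := kap_nonneg Q r K hK
  unfold Bd
  positivity

open Classical in
lemma E_count {ι : Type} (Q : Finset ℕ) (hQ : ∀ p ∈ Q, p.Prime) (s t M r : ℕ) (hr : Even r) (K : ℝ)
    (hK : 1 ≤ K) (hs : 1 ≤ s) (lam c : ι → ℝ)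
    (hM : ∀ x : ℝ, 0 < x → ∃ F : Finset ι, F.card ≤ M ∧ ∀ n, x < lam n → lam n ≤ 2 * x → n ∈ F)
    (j N : ℕ) :
    (((range (2 ^ N)).filter (fun k => k / 2 ^ t = j ∧ EE Q s t lam c N k)).card : ℝ) ≤
      eta Q s t M r K * 2 ^ t := by
  have hρ := rho_pos Q hQ
  set h : ℕ := 2 ^ (s + 1) + 2 with hh
  have hh0 : (0 : ℝ) < h := by
    rw [hh]
    positivity
  obtain ⟨F, hF, hFn⟩ := hM ((2 : ℝ) ^ (N + s) / 2) (by positivity)
  set T := F.filter (fun n => (2 : ℝ) ^ (N + s) / 2 < lam n ∧ lam n ≤ 2 ^ (N + s)) with hT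
  have hTcard : T.card ≤ M := (card_filter_le _ _).trans hF
  set τ : ℝ := 2 * (rho Q * (h : ℝ)) with hτ
  set X : ι → Finset ℕ := fun n => (range (2 ^ N)).filter (fun k => k / 2 ^ t = j ∧
      τ < GG Q ((k : ℝ) / 2 ^ N * lam n + c n) (((k : ℝ) + 1) / 2 ^ N * lam n + c n)) with hX
  have hsub : (range (2 ^ N)).filter (fun k => k / 2 ^ t = j ∧ EE Q s t lam c N k) ⊆ T.biUnion X := by
    intro k hk
    rw [mem_filter] at hk
    obtain ⟨hk1, hk2, -, n, hn1, hn2, hn3⟩ := hk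
    rw [mem_biUnion]
    refine ⟨n, ?_, ?_⟩
    · rw [hT, mem_filter]
      exact ⟨hFn n hn1 (by linarith), hn1, hn2⟩
    · simp only [hX, mem_filter]
      exact ⟨hk1, hk2, hn3⟩
  have hXn : ∀ n ∈ T, ((X n).card : ℝ) ≤ 2 * Bd Q s t r K / 2 ^ s := by
    intro n hn
    rw [hT, mem_filter] at hn
    obtain ⟨A, B, hAB, hBA, h1⟩ := X_count Q s t N j hs (lam n) (c n) τ hn.2.1 hn.2.2
    have h2 := count_bad Q hQ r hr h K hK A B hAB
    have h3 : (((Ioc A B).filter (fun y => τ < CC Q h y)).card : ℝ) ≤ Bd Q s t r K := by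
      rw [Bd, le_div_iff₀ (by positivity)]
      refine h2.trans ?_
      have h4 : 0 ≤ 2 * (rho Q * (h : ℝ)) + 2 * ((h : ℝ) ^ 2 * kap Q r K) := by
        have := kap_nonneg Q r K hK
        positivity
      have h5 := mul_le_mul_of_nonneg_right hBA h4
      rw [← hh]
      linarith
    rw [le_div_iff₀ (by positivity)]
    calc ((X n).card : ℝ) * 2 ^ s ≤ 2 * (((Ioc A B).filter (fun y => τ < CC Q h y)).card : ℝ) := h1
      _ ≤ 2 * Bd Q s t r K := by linarith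
  have hB := Bd_nonneg Q hQ s t r K hK
  calc (((range (2 ^ N)).filter (fun k => k / 2 ^ t = j ∧ EE Q s t lam c N k)).card : ℝ)
      ≤ ((T.biUnion X).card : ℝ) := by exact_mod_cast card_le_card hsub
    _ ≤ ∑ n ∈ T, ((X n).card : ℝ) := by exact_mod_cast card_biUnion_le
    _ ≤ ∑ n ∈ T, 2 * Bd Q s t r K / 2 ^ s := sum_le_sum hXn
    _ = T.card * (2 * Bd Q s t r K / 2 ^ s) := by rw [sum_const, nsmul_eq_mul]
    _ ≤ M * (2 * Bd Q s t r K / 2 ^ s) := by gcongr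
    _ = eta Q s t M r K * 2 ^ t := by
      rw [eta, pow_add]
      field_simp

/-- **lower bound for the content** of the set of all `θ` such that the integers `⌊θ lam n + c n⌋` with
large `lam n` have a divisor in `Q` -/
lemma core_content {ι : Type} (Q : Finset ℕ) (hQ : ∀ p ∈ Q, p.Prime) (s t M r : ℕ) (hr : Even r) (K : ℝ)
    (hK : 1 ≤ K) (hs : 1 ≤ s) (ht : 1 ≤ t) (x d : ℝ) (hx0 : 0 < x) (hx1 : x < 1 / 2)
    (hx : 2 * (18 * M * rho Q) / (1 - x) ^ s + 2 * eta Q s t M r K / (1 - x) ^ t ≤ x)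
    (hd : (2 : ℝ) ^ d = 2 * (1 - x)) (lam c : ι → ℝ)
    (hM : ∀ x : ℝ, 0 < x → ∃ F : Finset ι, F.card ≤ M ∧ ∀ n, x < lam n → lam n ≤ 2 * x → n ∈ F)
    (V : ℕ → Set ℝ)
    (hV : {θ : ℝ | θ ∈ Set.Icc (0 : ℝ) 1 ∧
      ∀ n, (2 : ℝ) ^ (s + t) ≤ lam n → ∃ p ∈ Q, (p : ℤ) ∣ ⌊θ * lam n + c n⌋} ⊆ ⋃ i, V i) :
    (1 / 12 : ℝ≥0∞) ≤ ∑' i, ediam (V i) ^ d := by
  have hρ := rho_pos Q hQ
  have hB := Bd_nonneg Q hQ s t r K hK
  refine content x (18 * M * rho Q) (eta Q s t M r K) d s t (RR Q s t lam c) (EE Q s t lam c) hs ht hx0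
    hx1 (by positivity) (by unfold eta; positivity) hx ?_ ?_ ?_ ?_ hd _ ?_ V hV
  · rintro n k hn ⟨h1, -⟩
    omega
  · rintro n k hn ⟨h1, -⟩
    omega
  · intro m j N hN hE _
    exact R_count Q hQ s t M hs lam c hM m j N hN hE
  · intro m j N _ _
    exact E_count Q hQ s t M r hr K hK hs lam c hM j N
  · intro θ hθ
    constructor
    · obtain ⟨k, hk1, -, hk3⟩ := hθ 0
      have : k = 0 := by simpa using hk1
      subst this
      simpa [DI] using hk3
    intro n hn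
    by_contra hcon
    push Not at hcon
    -- the level
    have hex : ∃ N : ℕ, lam n ≤ 2 ^ N := by
      obtain ⟨N, hN⟩ := pow_unbounded_of_one_lt (lam n) (by norm_num : (1 : ℝ) < 2)
      exact ⟨N, hN.le⟩
    classical
    set N := Nat.find hex with hN
    have hN1 : lam n ≤ 2 ^ N := Nat.find_spec hex
    have hN2 : s + t ≤ N := by
      by_contra hlt
      push Not at hlt
      have : (2 : ℝ) ^ N < 2 ^ (s + t) := pow_lt_pow_right₀ (by norm_num) hlt
      linarith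
    have hN3 : (2 : ℝ) ^ N / 2 < lam n := by
      have h1 := Nat.find_min hex (m := N - 1) (by omega)
      push Not at h1
      have h2 : (2 : ℝ) ^ N / 2 = 2 ^ (N - 1) := by
        have : N = N - 1 + 1 := by omega
        rw [this, pow_succ]
        simp
      rw [h2]
      exact h1
    obtain ⟨k, -, hk2, hk3⟩ := hθ N
    apply hk2
    refine ⟨hN2, n, hN3, hN1, ⌊θ * lam n + c n⌋, hcon, θ, hk3, Int.floor_le _, ?_⟩
    exact (Int.lt_floor_add_one _).le

end Pool.Agent.H541.LL
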