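import Pool.Agent.H541.LL.Geo
import Pool.Graph.R_seed8.Helper601.Mertens

set_option autoImplicit false

/-!
Choice of the parameters.
-/

namespace Pool.Agent.H541.LL

open Finset

lemma pw_card (Q : Finset ℕ) (r z : ℕ) (hz : Q.card + 1 ≤ z) : (Pw Q r).card ≤ z ^ r := by
  have h2 : Pw Q r = (range (r + 1)).biUnion (fun j => powersetCard j Q) := by
    ext t
    simp only [Pw, mem_filter, mem_powerset, mem_biUnion, mem_range, mem_powersetCard]
    constructor
    · rintro ⟨h1, h2⟩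
      exact ⟨t.card, by omega, h1, rfl⟩
    · rintro ⟨j, hj, h1, h2⟩
      exact ⟨h1, by omega⟩
  rw [h2]
  refine card_biUnion_le.trans ?_
  calc ∑ j ∈ range (r + 1), (powersetCard j Q).card = ∑ j ∈ range (r + 1), Q.card.choose j := by
        simp only [card_powersetCard]
    _ ≤ ∑ j ∈ range (r + 1), Q.card ^ j * 1 ^ (r - j) * r.choose j := by
        apply sum_le_sum
        intro j hj
        rw [mem_range] at hj
        have h3 : 1 ≤ r.choose j := Nat.choose_pos (by omega)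
        have h4 : Q.card.choose j ≤ Q.card ^ j := Nat.choose_le_pow _ _
        rw [one_pow, mul_one]
        calc Q.card.choose j ≤ Q.card ^ j * 1 := by rw [mul_one]; exact h4
          _ ≤ Q.card ^ j * r.choose j := Nat.mul_le_mul_left _ h3
    _ = (Q.card + 1) ^ r := by rw [add_pow]; simp
    _ ≤ z ^ r := Nat.pow_le_pow_left hz r

lemma rho_le (Q : Finset ℕ) (hQ : ∀ p ∈ Q, p.Prime) : rho Q ≤ Real.exp (-∑ p ∈ Q, 1 / (p : ℝ)) := by
  rw [rho, ← sum_neg_distrib, Real.exp_sum]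
  apply prod_le_prod
  · intro p hp
    exact (one_sub_nonneg Q hQ p hp).le
  · intro p _
    have := Real.add_one_le_exp (-(1 / (p : ℝ)))
    linarith

lemma le_rho (Q : Finset ℕ) (hQ : ∀ p ∈ Q, p.Prime) :
    Real.exp (-2 * ∑ p ∈ Q, 1 / (p : ℝ)) ≤ rho Q := by
  rw [rho, mul_sum, Real.exp_sum]
  apply prod_le_prod
  · intro p _
    positivity
  · intro p hp
    have h1 : (2 : ℝ) ≤ p := by exact_mod_cast (hQ p hp).two_le
    set u : ℝ := 1 / (p : ℝ) with hu
    have hu0 : 0 < u := by positivity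
    have hu2 : u ≤ 1 / 2 := by
      rw [hu]
      gcongr
    have h2 := Real.add_one_le_exp (2 * u)
    have h3 : Real.exp (-2 * u) = (Real.exp (2 * u))⁻¹ := by
      rw [← Real.exp_neg]
      congr 1
      ring
    rw [h3, inv_le_comm₀ (Real.exp_pos _) (by linarith)]
    refine le_trans ?_ h2
    rw [inv_le_comm₀ (by linarith) (by linarith), inv_le_iff_one_le_mul₀ (by linarith)]
    nlinarith

lemma kap_le (Q : Finset ℕ) (r : ℕ) (K : ℝ) (hK : 1 ≤ K) :
    kap Q r K ≤ K⁻¹ ^ r * Real.exp (4 * K * ∑ p ∈ Q, 1 / (p : ℝ)) := by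
  unfold kap
  apply mul_le_mul_of_nonneg_left _ (by positivity)
  rw [mul_sum, Real.exp_sum]
  apply prod_le_prod
  · intro p _
    have : 0 ≤ (4 * K - 1) / (p : ℝ) := div_nonneg (by linarith) (by positivity)
    linarith
  · intro p _
    have h1 := Real.add_one_le_exp (4 * K * (1 / (p : ℝ)))
    have h2 : (4 * K - 1) / (p : ℝ) ≤ 4 * K * (1 / (p : ℝ)) := by
      rw [mul_one_div]
      gcongr
      linarith
    linarith

/-- reduction of the condition to three inequalities -/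
lemma cond_of (Q : Finset ℕ) (hQ : ∀ p ∈ Q, p.Prime) (s B M r : ℕ) (K x : ℝ)
    (hx : x = 100 * M * rho Q) (hM : 1 ≤ M) (hx1 : x < 1) (hxs : x * s ≤ 1 / 2)
    (hK : 1 ≤ K)
    (h1 : (2 : ℝ) ^ B ≤ rho Q ^ 2 * 2 ^ s)
    (h2 : 2 * kap Q r K * 2 ^ B ≤ rho Q ^ 3)
    (h3 : ((Pw Q r).card : ℝ) ^ 2 * 2 ^ B ≤ rho Q ^ 3 * 2 ^ (s + s * B)) :
    2 * (18 * M * rho Q) / (1 - x) ^ s + 2 * eta Q s (s * B) M r K / (1 - x) ^ (s * B) ≤ x := by
  have hρ := rho_pos Q hQ
  have hκ := kap_nonneg Q r K hK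
  have hMr : (1 : ℝ) ≤ M := by exact_mod_cast hM
  have hy0 : 0 < 1 - x := by linarith
  have hys : 1 / 2 ≤ (1 - x) ^ s := by
    have := one_add_mul_le_pow (a := -x) (by linarith) s
    have h4 : 1 + (s : ℝ) * -x ≤ (1 - x) ^ s := by
      rw [sub_eq_add_neg]
      exact this
    linarith
  have hyt : (1 / 2 : ℝ) ^ B ≤ (1 - x) ^ (s * B) := by
    rw [pow_mul]
    exact pow_le_pow_left₀ (by norm_num) hys B
  set h : ℝ := ((2 ^ (s + 1) + 2 : ℕ) : ℝ) with hh
  have hh2 : 2 * (2 : ℝ) ^ s ≤ h := by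
    rw [hh]
    push_cast
    rw [pow_succ]
    linarith
  have h2s : (0 : ℝ) < 2 ^ s := by positivity
  have hh0 : 0 < h := by linarith
  have h2B : (0 : ℝ) < 2 ^ B := by positivity
  -- first term
  have e1 : 2 * (18 * M * rho Q) / (1 - x) ^ s ≤ 72 * M * rho Q := by
    rw [div_le_iff₀ (by positivity)]
    have : 72 * M * rho Q * (1 / 2) ≤ 72 * M * rho Q * (1 - x) ^ s := by gcongr
    linarith
  -- second term
  have e2 : eta Q s (s * B) M r K = 2 * M * (4 / (rho Q * h) + 4 * kap Q r K / rho Q ^ 2 +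
      3 * ((Pw Q r).card : ℝ) ^ 2 / (rho Q ^ 2 * 2 ^ (s + s * B))) := by
    rw [eta, Bd, ← hh, pow_succ]
    field_simp
    ring
  have e3 : 4 / (rho Q * h) * 2 ^ B ≤ 2 * rho Q := by
    rw [div_mul_eq_mul_div, div_le_iff₀ (by positivity)]
    calc 4 * (2 : ℝ) ^ B ≤ 4 * (rho Q ^ 2 * 2 ^ s) := by gcongr
      _ = 2 * rho Q ^ 2 * (2 * 2 ^ s) := by ring
      _ ≤ 2 * rho Q ^ 2 * h := by gcongr
      _ = 2 * rho Q * (rho Q * h) := by ring
  have e4 : 4 * kap Q r K / rho Q ^ 2 * 2 ^ B ≤ 2 * rho Q := by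
    rw [div_mul_eq_mul_div, div_le_iff₀ (by positivity)]
    nlinarith
  have e5 : 3 * ((Pw Q r).card : ℝ) ^ 2 / (rho Q ^ 2 * 2 ^ (s + s * B)) * 2 ^ B ≤ 3 * rho Q := by
    rw [div_mul_eq_mul_div, div_le_iff₀ (by positivity)]
    nlinarith
  have e6 : 2 * eta Q s (s * B) M r K / (1 - x) ^ (s * B) ≤ 28 * M * rho Q := by
    have e7 : 2 * eta Q s (s * B) M r K / (1 - x) ^ (s * B) ≤
        2 * eta Q s (s * B) M r K * 2 ^ B := by
      rw [div_le_iff₀ (by positivity)]
      have e8 : 0 ≤ 2 * eta Q s (s * B) M r K * 2 ^ B := by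
        rw [e2]
        positivity
      have e9 : 1 ≤ 2 ^ B * (1 - x) ^ (s * B) := by
        calc (1 : ℝ) = 2 ^ B * (1 / 2) ^ B := by
              rw [← mul_pow]
              norm_num
          _ ≤ 2 ^ B * (1 - x) ^ (s * B) := by gcongr
      have e10 : 0 ≤ 2 * eta Q s (s * B) M r K := by
        rw [e2]
        positivity
      calc 2 * eta Q s (s * B) M r K = 2 * eta Q s (s * B) M r K * 1 := by ring
        _ ≤ 2 * eta Q s (s * B) M r K * (2 ^ B * (1 - x) ^ (s * B)) := by gcongr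
        _ = 2 * eta Q s (s * B) M r K * 2 ^ B * (1 - x) ^ (s * B) := by ring
    refine e7.trans ?_
    rw [e2]
    calc 2 * (2 * M * (4 / (rho Q * h) + 4 * kap Q r K / rho Q ^ 2 +
      3 * ((Pw Q r).card : ℝ) ^ 2 / (rho Q ^ 2 * 2 ^ (s + s * B)))) * 2 ^ B
        = 4 * M * (4 / (rho Q * h) * 2 ^ B + 4 * kap Q r K / rho Q ^ 2 * 2 ^ B +
      3 * ((Pw Q r).card : ℝ) ^ 2 / (rho Q ^ 2 * 2 ^ (s + s * B)) * 2 ^ B) := by ring
      _ ≤ 4 * M * (2 * rho Q + 2 * rho Q + 3 * rho Q) := by gcongr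
      _ = 28 * M * rho Q := by ring
  rw [hx] at *
  linarith

open Filter in
lemma ev_log (A B : ℝ) : ∀ᶠ L : ℝ in atTop, A * Real.log L + B ≤ L := by
  have h1 : (fun L : ℝ => A * Real.log L + B) =o[atTop] (fun L : ℝ => L) := by
    apply Asymptotics.IsLittleO.add
    · exact Asymptotics.IsLittleO.const_mul_left Real.isLittleO_log_id_atTop A
    · exact Asymptotics.isLittleO_const_left.2 (Or.inr tendsto_norm_atTop_atTop)
  have h2 := h1.bound (by norm_num : (0 : ℝ) < 1)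
  filter_upwards [h2, eventually_ge_atTop (0 : ℝ)] with L hL hL0
  rw [one_mul, Real.norm_eq_abs, Real.norm_eq_abs, abs_of_nonneg hL0] at hL
  exact (le_abs_self _).trans hL

open Filter in
lemma exists_params (M : ℕ) (hM : 1 ≤ M) (δ : ℝ) (hδ : 0 < δ) :
    ∃ (Q : Finset ℕ) (s t r : ℕ) (K x : ℝ), (∀ p ∈ Q, p.Prime) ∧ Even r ∧ 1 ≤ K ∧ 1 ≤ s ∧ 1 ≤ t ∧
      0 < x ∧ x < 1 / 2 ∧ x ≤ δ ∧
      2 * (18 * M * rho Q) / (1 - x) ^ s + 2 * eta Q s t M r K / (1 - x) ^ t ≤ x := by
  obtain ⟨C, hC⟩ := Pool.Agent.Helper601.Mertens.mertens_inv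
  have hC0 : 0 ≤ C := (abs_nonneg _).trans (hC 3 le_rfl)
  have hMr : (1 : ℝ) ≤ M := by exact_mod_cast hM
  obtain ⟨c, hc⟩ : ∃ c : ℝ, c = 200 * M * Real.exp C := ⟨_, rfl⟩
  have hexpC : 1 ≤ Real.exp C := Real.one_le_exp hC0
  have hc200 : 200 ≤ c := by
    rw [hc]
    nlinarith
  obtain ⟨b, hb16⟩ : ∃ b : ℕ, 16 * c ≤ b := ⟨⌈16 * c⌉₊, Nat.le_ceil _⟩
  obtain ⟨K, hK⟩ : ∃ K : ℝ, K = 2 ^ (b + 1) := ⟨_, rfl⟩
  have hK1 : 1 ≤ K := by
    rw [hK]
    exact one_le_pow₀ (by norm_num)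
  have hlog2a : (1 : ℝ) / 2 ≤ Real.log 2 := by linarith [Real.log_two_gt_d9]
  have hlog2b : Real.log 2 ≤ 1 := by linarith [Real.log_two_lt_d9]
  -- choice of z
  have hev : ∀ᶠ L : ℝ in atTop, 2 * c ≤ L ∧ c / δ ≤ L ∧
      4 * c * (b * ((8 * K + 12) * (Real.log L + C) + 4) + 4 * (Real.log L + C)) ≤ L ∧
      (b : ℝ) ≤ L ∧ 3 * (Real.log L + C) ≤ L := by
    have h1 := ev_log (4 * c * (b * (8 * K + 12) + 4))
      (4 * c * (b * ((8 * K + 12) * C + 4) + 4 * C))
    have h2 := ev_log 3 (3 * C)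
    filter_upwards [eventually_ge_atTop (2 * c), eventually_ge_atTop (c / δ), h1,
      eventually_ge_atTop (b : ℝ), h2] with L h3 h4 h5 h6 h7
    refine ⟨h3, h4, ?_, h6, ?_⟩
    · refine le_trans (le_of_eq ?_) h5
      ring
    · refine le_trans (le_of_eq ?_) h7
      ring
  have hev2 : ∀ᶠ z : ℕ in atTop, 3 ≤ z ∧ (2 * c ≤ Real.log z ∧ c / δ ≤ Real.log z ∧
      4 * c * (b * ((8 * K + 12) * (Real.log (Real.log z) + C) + 4) + 4 * (Real.log (Real.log z) + C))
        ≤ Real.log z ∧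
      (b : ℝ) ≤ Real.log z ∧ 3 * (Real.log (Real.log z) + C) ≤ Real.log z) := by
    refine (eventually_ge_atTop 3).and ?_
    exact (Real.tendsto_log_atTop.comp tendsto_natCast_atTop_atTop).eventually hev
  obtain ⟨z, hz3, hA1, hA2, hA3, hA4, hA5⟩ := hev2.exists
  obtain ⟨L, hL⟩ : ∃ L : ℝ, L = Real.log z := ⟨_, rfl⟩
  rw [← hL] at hA1 hA2 hA3 hA4 hA5
  obtain ⟨y, hy⟩ : ∃ y : ℝ, y = Real.log L + C := ⟨_, rfl⟩
  rw [← hy] at hA3 hA5
  set Q : Finset ℕ := (Finset.Icc 1 z).filter Nat.Prime with hQdef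
  have hQ : ∀ p ∈ Q, p.Prime := fun p hp => (mem_filter.1 hp).2
  have hL0 : 0 < L := by linarith
  have hmert := abs_le.1 (hC z hz3)
  rw [← hL] at hmert
  set Λ : ℝ := ∑ p ∈ Q, 1 / (p : ℝ) with hΛ
  have hΛ1 : Λ ≤ y := by
    have := hmert.2
    rw [hy]
    linarith
  have hΛ0 : 0 ≤ Λ := sum_nonneg fun p _ => by positivity
  have hy0 : 0 ≤ y := hΛ0.trans hΛ1
  have hρ := rho_pos Q hQ
  have hρ1 : rho Q ≤ Real.exp C / L := by
    refine (rho_le Q hQ).trans ?_
    have h1 : Real.log L - C ≤ Λ := by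
      have := hmert.1
      linarith
    calc Real.exp (-Λ) ≤ Real.exp (C - Real.log L) := Real.exp_le_exp.2 (by linarith)
      _ = Real.exp C / L := by rw [Real.exp_sub, Real.exp_log hL0]
  have hρ2 : Real.exp (-2 * y) ≤ rho Q := by
    refine le_trans ?_ (le_rho Q hQ)
    exact Real.exp_le_exp.2 (by linarith)
  -- the parameters
  obtain ⟨s, hsle, hslt⟩ : ∃ s : ℕ, (s : ℝ) ≤ 1 / (200 * M * rho Q) ∧ 1 / (200 * M * rho Q) < s + 1 :=
    ⟨⌊1 / (200 * M * rho Q)⌋₊, Nat.floor_le (by positivity), Nat.lt_floor_add_one _⟩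
  have hsge : L / c - 1 ≤ s := by
    have h1 := hslt
    have h2 : L / c ≤ 1 / (200 * M * rho Q) := by
      rw [div_le_div_iff₀ (by linarith) (by positivity)]
      have h3 : rho Q * L ≤ Real.exp C := by
        rwa [le_div_iff₀ hL0] at hρ1
      rw [hc]
      nlinarith
    linarith
  have hsge2 : L / (2 * c) ≤ s := by
    have h1 : 1 ≤ L / (2 * c) := by
      rw [le_div_iff₀ (by linarith)]
      linarith
    have h2 : L / c = 2 * (L / (2 * c)) := by
      field_simp
    linarith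
  have hs1 : 1 ≤ s := by
    have h1 : 1 ≤ L / (2 * c) := by
      rw [le_div_iff₀ (by linarith)]
      linarith
    have : (1 : ℝ) ≤ s := by linarith
    exact_mod_cast this
  obtain ⟨r, hre, hrge, hrle⟩ : ∃ r : ℕ, Even r ∧ (8 * K + 12) * y + 2 ≤ r ∧
      (r : ℝ) ≤ (8 * K + 12) * y + 4 := by
    refine ⟨2 * ⌈(4 * K + 6) * y + 1⌉₊, ⟨⌈(4 * K + 6) * y + 1⌉₊, by ring⟩, ?_, ?_⟩
    · have := Nat.le_ceil ((4 * K + 6) * y + 1)
      push_cast
      linarith
    · have := Nat.ceil_lt_add_one (show 0 ≤ (4 * K + 6) * y + 1 by positivity)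
      push_cast
      linarith
  have hKy : 0 ≤ (8 * K + 12) * y := by positivity
  have hr2 : (2 : ℝ) ≤ r := by linarith
  obtain ⟨x, hx⟩ : ∃ x : ℝ, x = 100 * M * rho Q := ⟨_, rfl⟩
  have hxc : x ≤ c / (2 * L) := by
    rw [hx, hc]
    calc 100 * M * rho Q ≤ 100 * M * (Real.exp C / L) := by gcongr
      _ = 200 * M * Real.exp C / (2 * L) := by
        field_simp
        ring
  have hx14 : x ≤ 1 / 4 := by
    refine hxc.trans ?_
    rw [div_le_iff₀ (by linarith)]
    linarith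
  have hxδ : x ≤ δ := by
    refine hxc.trans ?_
    rw [div_le_iff₀ (by linarith)]
    rw [div_le_iff₀ hδ] at hA2
    nlinarith
  have hx0 : 0 < x := by
    rw [hx]
    positivity
  have hB1 : 1 ≤ b * r := by
    have h1 : (1 : ℝ) ≤ b := by linarith
    have h2 : 1 ≤ b := by exact_mod_cast h1
    have h3 : 2 ≤ r := by exact_mod_cast hr2
    nlinarith
  have hsr : L / 4 / c ≤ s * Real.log 2 := by
    have : L / (2 * c) * (1 / 2) ≤ s * Real.log 2 := by gcongr
    refine le_trans (le_of_eq ?_) this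
    field_simp
    norm_num
  have e2 : ∀ n : ℕ, (2 : ℝ) ^ n = Real.exp (n * Real.log 2) := by
    intro n
    rw [mul_comm, Real.exp_mul, Real.exp_log (by norm_num), Real.rpow_natCast]
  have hρ3 : Real.exp (-6 * y) ≤ rho Q ^ 3 := by
    calc Real.exp (-6 * y) = Real.exp (-2 * y) ^ 3 := by
          rw [← Real.exp_nat_mul]
          congr 1
          push_cast
          ring
      _ ≤ rho Q ^ 3 := by gcongr
  refine ⟨Q, s, s * (b * r), r, K, x, hQ, hre, hK1, hs1,
    Nat.one_le_iff_ne_zero.2 (Nat.mul_ne_zero (by omega) (by omega)), hx0, by linarith, hxδ, ?_⟩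
  apply cond_of Q hQ s (b * r) M r K x hx hM (by linarith) _ hK1
  · -- (P1)
    rw [e2, e2]
    calc Real.exp (((b * r : ℕ) : ℝ) * Real.log 2) ≤ Real.exp (-4 * y + s * Real.log 2) := by
          apply Real.exp_le_exp.2
          have h1 : ((b * r : ℕ) : ℝ) * Real.log 2 ≤ b * ((8 * K + 12) * y + 4) := by
            push_cast
            calc (b : ℝ) * r * Real.log 2 ≤ b * r * 1 := by gcongr
              _ = b * r := by ring
              _ ≤ b * ((8 * K + 12) * y + 4) := by gcongr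
          have h2 : b * ((8 * K + 12) * y + 4) + 4 * y ≤ L / 4 / c := by
            rw [div_div, le_div_iff₀ (by positivity)]
            linarith
          linarith
      _ = Real.exp (-2 * y) ^ 2 * Real.exp (s * Real.log 2) := by
          rw [← Real.exp_nat_mul, ← Real.exp_add]
          congr 1
          push_cast
          ring
      _ ≤ rho Q ^ 2 * Real.exp (s * Real.log 2) := by gcongr
  · -- (P2)
    refine le_trans ?_ hρ3
    have h1 := kap_le Q r K hK1
    have h2 : K⁻¹ ^ r * 2 ^ (b * r) = Real.exp (-(r * Real.log 2)) := by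
      rw [Real.exp_neg, ← e2, hK, inv_pow, ← pow_mul]
      have h3 : (b + 1) * r = b * r + r := by ring
      rw [h3, pow_add]
      have : (2 : ℝ) ^ (b * r) ≠ 0 := by positivity
      have : (2 : ℝ) ^ r ≠ 0 := by positivity
      field_simp
    calc 2 * kap Q r K * 2 ^ (b * r) ≤ 2 * (K⁻¹ ^ r * Real.exp (4 * K * Λ)) * 2 ^ (b * r) := by
          gcongr
      _ = 2 * (K⁻¹ ^ r * 2 ^ (b * r)) * Real.exp (4 * K * Λ) := by ring
      _ = Real.exp (Real.log 2) * Real.exp (-(r * Real.log 2)) * Real.exp (4 * K * Λ) := by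
          rw [h2, Real.exp_log (by norm_num : (0 : ℝ) < 2)]
      _ = Real.exp (Real.log 2 + -(r * Real.log 2) + 4 * K * Λ) := by
          rw [Real.exp_add, Real.exp_add]
      _ ≤ Real.exp (-6 * y) := by
          apply Real.exp_le_exp.2
          have h3 : 4 * K * Λ ≤ 4 * K * y := by gcongr
          have h4 : ((8 * K + 12) * y + 2) * (1 / 2) ≤ r * Real.log 2 := by gcongr
          linarith
  · -- (P3)
    have hcard : Q.card + 1 ≤ z := by
      have h1 : Q ⊆ Finset.Icc 2 z := by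
        intro p hp
        rw [hQdef, mem_filter, mem_Icc] at hp
        rw [mem_Icc]
        exact ⟨hp.2.two_le, hp.1.2⟩
      have h2 := card_le_card h1
      rw [Nat.card_Icc] at h2
      omega
    have hD := pw_card Q r z hcard
    have hD' : ((Pw Q r).card : ℝ) ≤ Real.exp (r * L) := by
      calc ((Pw Q r).card : ℝ) ≤ ((z ^ r : ℕ) : ℝ) := by exact_mod_cast hD
        _ = (z : ℝ) ^ r := by push_cast; rfl
        _ = Real.exp (r * L) := by
          rw [mul_comm, Real.exp_mul, hL, Real.exp_log (by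
            have : (3 : ℝ) ≤ z := by exact_mod_cast hz3
            linarith), Real.rpow_natCast]
    calc ((Pw Q r).card : ℝ) ^ 2 * 2 ^ (b * r) ≤ Real.exp (r * L) ^ 2 * 2 ^ (b * r) := by gcongr
      _ = Real.exp (2 * (r * L) + ((b * r : ℕ) : ℝ) * Real.log 2) := by
          rw [e2, ← Real.exp_nat_mul, ← Real.exp_add]
          push_cast
          rfl
      _ ≤ Real.exp (-6 * y + ((s + s * (b * r) : ℕ) : ℝ) * Real.log 2) := by
          apply Real.exp_le_exp.2
          have h1 : ((b * r : ℕ) : ℝ) * Real.log 2 ≤ b * r := by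
            push_cast
            calc (b : ℝ) * r * Real.log 2 ≤ b * r * 1 := by gcongr
              _ = b * r := by ring
          have h2 : 4 * (L * r) ≤ ((s + s * (b * r) : ℕ) : ℝ) * Real.log 2 := by
            have h3 : (0 : ℝ) ≤ s * Real.log 2 := by positivity
            calc 4 * (L * r) = L / 4 / c * (16 * c * r) := by
                  field_simp
                  ring
              _ ≤ (s * Real.log 2) * (b * r) := by gcongr
              _ ≤ (s * Real.log 2) * (b * r) + s * Real.log 2 := by linarith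
              _ = ((s + s * (b * r) : ℕ) : ℝ) * Real.log 2 := by
                  push_cast
                  ring
          have h4 : (b : ℝ) * r ≤ L * r := by gcongr
          have h5 : 6 * y ≤ L * r := by nlinarith
          nlinarith
      _ = Real.exp (-6 * y) * 2 ^ (s + s * (b * r)) := by rw [Real.exp_add, e2]
      _ ≤ rho Q ^ 3 * 2 ^ (s + s * (b * r)) := by gcongr
  · -- x s ≤ 1 / 2
    rw [hx]
    calc 100 * M * rho Q * s ≤ 100 * M * rho Q * (1 / (200 * M * rho Q)) := by gcongr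
      _ = 1 / 2 := by
        field_simp
        norm_num

end Pool.Agent.H541.LL
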