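import Pool.Agent.H541.LL.Unif

set_option autoImplicit false

/-!
From lines to the plane: content and dimension.
-/

namespace Pool.Agent.H541.LL

open Finset Metric MeasureTheory
open scoped ENNReal NNReal

/-- if all horizontal slices over `[0, 1]` have `d`-dimensional content at least `c0`, the set has
`(1 + d)`-dimensional content at least `c0` -/
lemma slices (d : ℝ) (hd0 : 0 < d) (c0 : ℝ≥0∞) (S : Set (ℝ × ℝ))
    (hS : ∀ B ∈ Set.Icc (0 : ℝ) 1, ∀ V : ℕ → Set ℝ, {θ : ℝ | (θ, B) ∈ S} ⊆ ⋃ i, V i →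
      c0 ≤ ∑' i, ediam (V i) ^ d) (V : ℕ → Set (ℝ × ℝ)) (hV : S ⊆ ⋃ i, V i) :
    c0 ≤ ∑' i, ediam (V i) ^ (1 + d) := by
  set W : ℕ → Set ℝ := fun i => toMeasurable volume (Prod.snd '' V i) with hW
  have hWm : ∀ i, MeasurableSet (W i) := fun i => measurableSet_toMeasurable _ _
  have hWv : ∀ i, volume (W i) ≤ ediam (V i) := by
    intro i
    rw [hW, measure_toMeasurable]
    refine (Real.volume_le_diam _).trans ?_
    apply ediam_le
    rintro x ⟨u, hu, rfl⟩ y ⟨v, hv, rfl⟩
    refine le_trans ?_ (edist_le_ediam_of_mem hu hv)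
    rw [Prod.edist_eq]
    exact le_max_right _ _
  have h1 : ∀ B ∈ Set.Icc (0 : ℝ) 1, c0 ≤ ∑' i, (W i).indicator (fun _ => ediam (V i) ^ d) B := by
    intro B hB
    refine (hS B hB (fun i => {θ : ℝ | (θ, B) ∈ V i}) ?_).trans ?_
    · intro θ hθ
      obtain ⟨i, hi⟩ := Set.mem_iUnion.1 (hV hθ)
      exact Set.mem_iUnion.2 ⟨i, hi⟩
    · apply ENNReal.tsum_le_tsum
      intro i
      by_cases hB2 : B ∈ Prod.snd '' V i
      · rw [Set.indicator_of_mem (subset_toMeasurable _ _ hB2)]
        apply ENNReal.rpow_le_rpow _ hd0.le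
        apply ediam_le
        intro θ hθ τ hτ
        refine le_trans ?_ (edist_le_ediam_of_mem hθ hτ)
        rw [Prod.edist_eq]
        exact le_max_left _ _
      · have h2 : {θ : ℝ | (θ, B) ∈ V i} = ∅ := by
          ext θ
          simp only [Set.mem_ofPred_eq, Set.mem_empty_iff_false, iff_false]
          intro h3
          exact hB2 ⟨(θ, B), h3, rfl⟩
        rw [h2, ediam_empty, ENNReal.zero_rpow_of_pos hd0]
        exact bot_le
  calc c0 = ∫⁻ _ in Set.Icc (0 : ℝ) 1, c0 := by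
        rw [setLIntegral_const, Real.volume_Icc]
        simp
    _ ≤ ∫⁻ B in Set.Icc (0 : ℝ) 1, ∑' i, (W i).indicator (fun _ => ediam (V i) ^ d) B := by
        apply setLIntegral_mono' measurableSet_Icc
        exact h1
    _ ≤ ∫⁻ B, ∑' i, (W i).indicator (fun _ => ediam (V i) ^ d) B := setLIntegral_le_lintegral _ _
    _ = ∑' i, ∫⁻ B, (W i).indicator (fun _ => ediam (V i) ^ d) B := by
        apply lintegral_tsum
        intro i
        exact (measurable_const.indicator (hWm i)).aemeasurable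
    _ = ∑' i, ediam (V i) ^ d * volume (W i) := by
        congr 1
        ext i
        rw [lintegral_indicator_const (hWm i)]
    _ ≤ ∑' i, ediam (V i) ^ (1 + d) := by
        apply ENNReal.tsum_le_tsum
        intro i
        rw [add_comm, ENNReal.rpow_add_of_nonneg _ _ hd0.le (by norm_num), ENNReal.rpow_one]
        gcongr
        exact hWv i

/-- positive content gives a lower bound for the dimension -/
lemma le_dimH_of_content {X : Type*} [EMetricSpace X] [MeasurableSpace X] [BorelSpace X] (d : ℝ≥0)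
    (hd0 : 0 < d) (c0 : ℝ≥0∞) (hc0 : 0 < c0) (S : Set X)
    (hS : ∀ V : ℕ → Set X, S ⊆ ⋃ i, V i → c0 ≤ ∑' i, ediam (V i) ^ (d : ℝ)) : (d : ℝ≥0∞) ≤ dimH S := by
  apply le_dimH_of_hausdorffMeasure_ne_zero
  rw [Measure.hausdorffMeasure_apply]
  apply ne_of_gt
  refine lt_of_lt_of_le hc0 ?_
  refine le_trans ?_ (le_iSup₂ (1 : ℝ≥0∞) one_pos)
  refine le_iInf fun V => le_iInf fun hV => le_iInf fun _ => ?_
  refine (hS V hV).trans ?_
  apply ENNReal.tsum_le_tsum
  intro i
  rcases (V i).eq_empty_or_nonempty with h | h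
  · rw [h, ediam_empty, ENNReal.zero_rpow_of_pos (by exact_mod_cast hd0)]
    exact bot_le
  · exact le_iSup (fun _ : (V i).Nonempty => ediam (V i) ^ (d : ℝ)) h

end Pool.Agent.H541.LL
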