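import Mathlib

set_option autoImplicit false

/-!
A recursive inequality with two lags (counting survivors in a tree).
-/

namespace Pool.Agent.H541.LL

open Finset

lemma rec_bound (x β η : ℝ) (s t : ℕ) (a : ℕ → ℝ) (u : ℕ → ℝ)
    (hs : 1 ≤ s) (ht : 1 ≤ t) (hx0 : 0 < x) (hx1 : x < 1) (hβ : 0 ≤ β) (hη : 0 ≤ η)
    (hx : 2 * β / (1 - x) ^ s + 2 * η / (1 - x) ^ t ≤ x)
    (hu0 : ∀ n, 0 ≤ u n)
    (hu : ∀ n, ∑ k ∈ range (n + 1), u k / (2 * (1 - x)) ^ k ≤ 1 / 2)
    (h0 : 1 - u 0 ≤ a 0)
    (hstep : ∀ n, 2 * a n ≤ a (n + 1) + (if s ≤ n + 1 then β * 2 ^ s * a (n + 1 - s) else 0)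
      + (if t ≤ n + 1 then η * 2 ^ t * a (n + 1 - t) else 0) + u (n + 1)) :
    ∀ n, (2 * (1 - x)) ^ n / 2 ≤ a n := by
  set g : ℝ := 2 * (1 - x) with hg
  have hy : 0 < 1 - x := by linarith
  have hg0 : 0 < g := by positivity
  set w : ℕ → ℝ := fun n => a n / g ^ n with hw
  set D : ℕ → ℝ := fun n => ∑ k ∈ range (n + 1), u k / g ^ k with hD
  have hDs : ∀ n, D (n + 1) = D n + u (n + 1) / g ^ (n + 1) := by
    intro n
    simp only [hD]
    rw [sum_range_succ]
  have hDm : ∀ n, 0 ≤ D n := by
    intro n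
    apply sum_nonneg
    intro k _
    exact div_nonneg (hu0 k) (by positivity)
  -- lagged term
  have key : ∀ (r : ℕ) (γ : ℝ) (n : ℕ), 1 ≤ r → r ≤ n + 1 →
      γ * 2 ^ r * a (n + 1 - r) / g ^ (n + 1) = γ / (1 - x) ^ r * w (n + 1 - r) := by
    intro r γ n _ hr
    obtain ⟨m, hm⟩ := Nat.exists_eq_add_of_le hr
    have h1 : n + 1 - r = m := by omega
    rw [h1, hm]
    simp only [hw]
    rw [pow_add, hg, mul_pow]
    field_simp
  have main : ∀ n, (∀ m ≤ n, w m - w n ≤ D n - D m) ∧ 1 - D n ≤ w n := by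
    intro n
    induction n with
    | zero =>
      refine ⟨fun m hm => ?_, ?_⟩
      · have : m = 0 := by omega
        subst this
        simp
      · simp only [hD, hw]
        simp
        linarith
    | succ n ih =>
      obtain ⟨ih1, ih2⟩ := ih
      have hDn : D n ≤ 1 / 2 := hu n
      have hwn : 1 / 2 ≤ w n := by linarith
      have hlag : ∀ (r : ℕ) (γ : ℝ), 1 ≤ r → 0 ≤ γ →
          (if r ≤ n + 1 then γ * 2 ^ r * a (n + 1 - r) else 0) / g ^ (n + 1) ≤
            2 * γ / (1 - x) ^ r * w n := by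
        intro r γ hr hγ
        split_ifs with h
        · rw [key r γ n hr h]
          have h1 := ih1 (n + 1 - r) (by omega)
          have h2 : w (n + 1 - r) ≤ 2 * w n := by
            have := hDm (n + 1 - r)
            linarith
          have h3 : 0 ≤ γ / (1 - x) ^ r := by positivity
          calc γ / (1 - x) ^ r * w (n + 1 - r) ≤ γ / (1 - x) ^ r * (2 * w n) :=
                mul_le_mul_of_nonneg_left h2 h3
            _ = 2 * γ / (1 - x) ^ r * w n := by ring
        · rw [zero_div]
          have : 0 ≤ w n := by linarith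
          positivity
      have h1 := hstep n
      have h2 : 2 * a n / g ^ (n + 1) = w n / (1 - x) := by
        simp only [hw]
        rw [pow_succ, hg]
        field_simp
      have h3 : 2 * a n / g ^ (n + 1) ≤ w (n + 1)
          + (if s ≤ n + 1 then β * 2 ^ s * a (n + 1 - s) else 0) / g ^ (n + 1)
          + (if t ≤ n + 1 then η * 2 ^ t * a (n + 1 - t) else 0) / g ^ (n + 1)
          + u (n + 1) / g ^ (n + 1) := by
        simp only [hw]
        rw [← add_div, ← add_div, ← add_div]
        exact div_le_div_of_nonneg_right h1 (by positivity)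
      have h4 := hlag s β hs hβ
      have h5 := hlag t η ht hη
      have h6 : w n * (1 + x) ≤ w n / (1 - x) := by
        rw [le_div_iff₀ hy]
        have : 0 ≤ w n * x ^ 2 := by
          have : 0 ≤ w n := by linarith
          positivity
        nlinarith
      have h7 : (2 * β / (1 - x) ^ s + 2 * η / (1 - x) ^ t) * w n ≤ x * w n :=
        mul_le_mul_of_nonneg_right hx (by linarith)
      have h8 : w n - w (n + 1) ≤ u (n + 1) / g ^ (n + 1) := by
        rw [h2] at h3
        nlinarith
      refine ⟨fun m hm => ?_, ?_⟩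
      · rcases Nat.lt_or_ge m (n + 1) with h | h
        · have h9 := ih1 m (by omega)
          rw [hDs]
          linarith
        · have : m = n + 1 := by omega
          subst this
          simp
      · rw [hDs]
        linarith
  intro n
  obtain ⟨-, h⟩ := main n
  have hDn : D n ≤ 1 / 2 := hu n
  have h1 : 1 / 2 ≤ a n / g ^ n := by
    have : w n = a n / g ^ n := rfl
    linarith
  rw [le_div_iff₀ (by positivity)] at h1
  linarith

end Pool.Agent.H541.LL
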