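import Pool.Agent.H541.LL.Bonf

set_option autoImplicit false

/-!
The second moment of the number of integers without prime factors in a finite set in short windows.
-/

namespace Pool.Agent.H541.LL

open Finset

/-- the product of the members -/
def PP (Q : Finset ℕ) : ℕ := ∏ p ∈ Q, p

/-- the density -/
noncomputable def rho (Q : Finset ℕ) : ℝ := ∏ p ∈ Q, (1 - 1 / (p : ℝ))

/-- number of members of the window `y + 1, …, y + h` without prime factors in `Q` -/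
noncomputable def CC (Q : Finset ℕ) (h : ℕ) (y : ℤ) : ℝ := ∑ i ∈ range h, cop Q (y + ((i : ℤ) + 1))

/-- the majorant -/
noncomputable def TT (Q : Finset ℕ) (r h : ℕ) (y : ℤ) : ℝ := ∑ i ∈ range h, SS Q r (y + ((i : ℤ) + 1))

lemma PP_pos (Q : Finset ℕ) (hQ : ∀ p ∈ Q, p.Prime) : 0 < PP Q := prod_pos fun p hp => (hQ p hp).pos

lemma one_sub_nonneg (Q : Finset ℕ) (hQ : ∀ p ∈ Q, p.Prime) (p : ℕ) (hp : p ∈ Q) :
    0 < 1 - 1 / (p : ℝ) := by
  have h1 : (2 : ℝ) ≤ p := by exact_mod_cast (hQ p hp).two_le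
  have h2 : 1 / (p : ℝ) ≤ 1 / 2 := by gcongr
  linarith

lemma rho_pos (Q : Finset ℕ) (hQ : ∀ p ∈ Q, p.Prime) : 0 < rho Q :=
  prod_pos fun p hp => one_sub_nonneg Q hQ p hp

lemma rho_le_one (Q : Finset ℕ) (hQ : ∀ p ∈ Q, p.Prime) : rho Q ≤ 1 := by
  apply prod_le_one
  · intro p hp
    exact (one_sub_nonneg Q hQ p hp).le
  · intro p hp
    have : 0 ≤ 1 / (p : ℝ) := by positivity
    linarith

lemma cop_prod (Q : Finset ℕ) (a : ℤ) :
    cop Q a = ∏ p ∈ Q, (1 - if ((p : ℕ) : ℤ) ∣ a then (1 : ℝ) else 0) := by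
  unfold cop
  split_ifs with h
  · symm
    apply prod_eq_one
    intro p hp
    rw [if_neg (h p hp)]
    norm_num
  · push Not at h
    obtain ⟨p, hp, hpa⟩ := h
    symm
    apply prod_eq_zero hp
    rw [if_pos hpa]
    norm_num

lemma dvd_shift (p : ℕ) (y z i : ℤ) (h : (p : ℤ) ∣ y - z) : ((p : ℤ) ∣ y + i ↔ (p : ℤ) ∣ z + i) := by
  have h1 : y + i = (y - z) + (z + i) := by ring
  rw [h1]
  exact (Int.dvd_add_right h)

lemma av_cop (Q : Finset ℕ) (hQ : ∀ p ∈ Q, p.Prime) (i : ℤ) :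
    av (PP Q) (fun y => cop Q (y + i)) = rho Q := by
  have h1 : (fun y => cop Q (y + i)) =
      fun y => ∏ p ∈ Q, (1 - if ((p : ℕ) : ℤ) ∣ y + i then (1 : ℝ) else 0) := by
    ext y
    rw [cop_prod]
  rw [h1, PP, av_prod Q hQ (fun p y => 1 - if ((p : ℕ) : ℤ) ∣ y + i then (1 : ℝ) else 0)]
  · apply prod_congr rfl
    intro p hp
    rw [av_sub, av_const p (hQ p hp).pos, av_dvd p (hQ p hp).pos]
  · intro p _ y z hyz
    simp only [dvd_shift p y z i hyz]

lemma av_cop_cop (Q : Finset ℕ) (hQ : ∀ p ∈ Q, p.Prime) (i j : ℤ) :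
    av (PP Q) (fun y => cop Q (y + i) * cop Q (y + j)) =
      ∏ p ∈ Q, ((if ((p : ℕ) : ℤ) ∣ i - j then 1 / (p : ℝ) else 0) + (1 - 2 / (p : ℝ))) := by
  have h1 : (fun y => cop Q (y + i) * cop Q (y + j)) =
      fun y => ∏ p ∈ Q, ((1 - if ((p : ℕ) : ℤ) ∣ y + i then (1 : ℝ) else 0) *
        (1 - if ((p : ℕ) : ℤ) ∣ y + j then (1 : ℝ) else 0)) := by
    ext y
    rw [cop_prod, cop_prod, prod_mul_distrib]
  rw [h1, PP, av_prod Q hQ (fun p y => ((1 - if ((p : ℕ) : ℤ) ∣ y + i then (1 : ℝ) else 0) *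
        (1 - if ((p : ℕ) : ℤ) ∣ y + j then (1 : ℝ) else 0)))]
  · apply prod_congr rfl
    intro p hp
    have hp0 := (hQ p hp).pos
    have h2 : (fun y : ℤ => ((1 - if ((p : ℕ) : ℤ) ∣ y + i then (1 : ℝ) else 0) *
        (1 - if ((p : ℕ) : ℤ) ∣ y + j then (1 : ℝ) else 0))) = fun y : ℤ =>
          ((1 - if ((p : ℕ) : ℤ) ∣ y + i then (1 : ℝ) else 0) -
          (if ((p : ℕ) : ℤ) ∣ y + j then (1 : ℝ) else 0)) +
          (if ((p : ℕ) : ℤ) ∣ i - j then (1 : ℝ) else 0) * (if ((p : ℕ) : ℤ) ∣ y + i then (1 : ℝ) else 0) := by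
      ext y
      by_cases h3 : (p : ℤ) ∣ y + i
      · have h4 : (p : ℤ) ∣ y + j ↔ (p : ℤ) ∣ i - j := by
          have h5 : y + j = (y + i) - (i - j) := by ring
          rw [h5]
          constructor
          · intro h6
            have := dvd_sub h3 h6
            simpa using this
          · intro h6
            exact dvd_sub h3 h6
        rw [if_pos h3]
        by_cases h7 : (p : ℤ) ∣ i - j
        · rw [if_pos h7, if_pos (h4.2 h7)]
          norm_num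
        · rw [if_neg h7, if_neg (fun h => h7 (h4.1 h))]
          norm_num
      · rw [if_neg h3]
        ring
    rw [h2, av_add, av_sub, av_sub, av_const p hp0, av_dvd p hp0, av_dvd p hp0, av_const_mul,
      av_dvd p hp0]
    split_ifs <;> ring
  · intro p _ y z hyz
    simp only [dvd_shift p y z i hyz, dvd_shift p y z j hyz]

/-- number of pairs of a short interval with a difference divisible by `m` -/
lemma pairs (h m : ℕ) (hm : 0 < m) :
    ∑ i ∈ range h, ∑ j ∈ range h, (if (m : ℤ) ∣ ((i : ℤ) + 1) - ((j : ℤ) + 1) then (1 : ℝ) else 0) ≤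
      (h : ℝ) ^ 2 / m + h := by
  have h1 : ∀ i ∈ range h, ∑ j ∈ range h,
      (if (m : ℤ) ∣ ((i : ℤ) + 1) - ((j : ℤ) + 1) then (1 : ℝ) else 0) ≤ (h : ℝ) / m + 1 := by
    intro i _
    rw [← sum_filter, sum_const, nsmul_eq_mul, mul_one]
    have h2 : ((range h).filter (fun j => (m : ℤ) ∣ ((i : ℤ) + 1) - (((j : ℕ) : ℤ) + 1))).card ≤
        h / m + 1 := by
      have h3 : (range h).filter (fun j => (m : ℤ) ∣ ((i : ℤ) + 1) - (((j : ℕ) : ℤ) + 1)) =
          (range h).filter (fun j => j ≡ i [MOD m]) := by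
        apply filter_congr
        intro j _
        rw [Nat.modEq_iff_dvd]
        have : (i : ℤ) + 1 - (j + 1) = i - j := by ring
        rw [this]
      rw [h3, ← Nat.count_eq_card_filter_range, Nat.count_modEq_card h hm]
      split_ifs <;> omega
    calc ((((range h).filter (fun j => (m : ℤ) ∣ ((i : ℤ) + 1) - (((j : ℕ) : ℤ) + 1))).card : ℕ) : ℝ)
        ≤ ((h / m + 1 : ℕ) : ℝ) := by exact_mod_cast h2
      _ ≤ (h : ℝ) / m + 1 := by
        push_cast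
        gcongr
        exact Nat.cast_div_le
  calc ∑ i ∈ range h, ∑ j ∈ range h, (if (m : ℤ) ∣ ((i : ℤ) + 1) - ((j : ℤ) + 1) then (1 : ℝ) else 0)
      ≤ ∑ i ∈ range h, ((h : ℝ) / m + 1) := sum_le_sum h1
    _ = (h : ℝ) ^ 2 / m + h := by
      rw [sum_const, card_range, nsmul_eq_mul]
      ring

/-- **second moment over a full period** -/
lemma av_CC_sq (Q : Finset ℕ) (hQ : ∀ p ∈ Q, p.Prime) (h : ℕ) :
    av (PP Q) (fun y => CC Q h y ^ 2) ≤ rho Q ^ 2 * h ^ 2 + rho Q * h := by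
  have h1 : (fun y => CC Q h y ^ 2) = fun y => ∑ i ∈ range h, ∑ j ∈ range h,
      cop Q (y + ((i : ℤ) + 1)) * cop Q (y + ((j : ℤ) + 1)) := by
    ext y
    rw [CC, sq, sum_mul_sum]
  rw [h1, av_sum]
  have h2 : ∀ i ∈ range h, av (PP Q) (fun y => ∑ j ∈ range h,
      cop Q (y + ((i : ℤ) + 1)) * cop Q (y + ((j : ℤ) + 1))) = ∑ j ∈ range h,
      ∑ t ∈ Q.powerset, (∏ p ∈ t, 1 / (p : ℝ)) * (∏ p ∈ Q \ t, (1 - 2 / (p : ℝ))) *
        (if ((∏ p ∈ t, p : ℕ) : ℤ) ∣ ((i : ℤ) + 1) - ((j : ℤ) + 1) then (1 : ℝ) else 0) := by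
    intro i _
    rw [av_sum]
    apply sum_congr rfl
    intro j _
    rw [av_cop_cop Q hQ, prod_add]
    apply sum_congr rfl
    intro t ht
    rw [mem_powerset] at ht
    have h3 : ∏ p ∈ t, (if ((p : ℕ) : ℤ) ∣ ((i : ℤ) + 1) - ((j : ℤ) + 1) then 1 / (p : ℝ) else 0) =
        (∏ p ∈ t, 1 / (p : ℝ)) *
        (if ((∏ p ∈ t, p : ℕ) : ℤ) ∣ ((i : ℤ) + 1) - ((j : ℤ) + 1) then (1 : ℝ) else 0) := by
      by_cases h4 : ∀ p ∈ t, ((p : ℕ) : ℤ) ∣ ((i : ℤ) + 1) - ((j : ℤ) + 1)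
      · rw [if_pos, mul_one]
        · apply prod_congr rfl
          intro p hp
          rw [if_pos (h4 p hp)]
        · rw [Int.natCast_dvd]
          apply Finset.prod_primes_dvd
          · intro p hp
            exact (hQ p (ht hp)).prime
          · intro p hp
            exact Int.natCast_dvd.1 (h4 p hp)
      · rw [if_neg, mul_zero]
        · push Not at h4
          obtain ⟨p, hp, hpd⟩ := h4
          apply prod_eq_zero hp
          rw [if_neg hpd]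
        · intro h5
          apply h4
          intro p hp
          refine dvd_trans ?_ h5
          exact_mod_cast dvd_prod_of_mem (fun p => p) hp
    rw [h3]
    ring
  rw [sum_congr rfl h2]
  have h5 : ∑ i ∈ range h, ∑ j ∈ range h,
      ∑ t ∈ Q.powerset, (∏ p ∈ t, 1 / (p : ℝ)) * (∏ p ∈ Q \ t, (1 - 2 / (p : ℝ))) *
        (if ((∏ p ∈ t, p : ℕ) : ℤ) ∣ ((i : ℤ) + 1) - ((j : ℤ) + 1) then (1 : ℝ) else 0) =
      ∑ t ∈ Q.powerset, (∏ p ∈ t, 1 / (p : ℝ)) * (∏ p ∈ Q \ t, (1 - 2 / (p : ℝ))) *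
        ∑ i ∈ range h, ∑ j ∈ range h,
          (if ((∏ p ∈ t, p : ℕ) : ℤ) ∣ ((i : ℤ) + 1) - ((j : ℤ) + 1) then (1 : ℝ) else 0) := by
    simp only [mul_sum]
    have e1 : ∀ i ∈ range h, ∑ j ∈ range h,
      ∑ t ∈ Q.powerset, (∏ p ∈ t, 1 / (p : ℝ)) * (∏ p ∈ Q \ t, (1 - 2 / (p : ℝ))) *
        (if ((∏ p ∈ t, p : ℕ) : ℤ) ∣ ((i : ℤ) + 1) - ((j : ℤ) + 1) then (1 : ℝ) else 0) =
        ∑ t ∈ Q.powerset, ∑ j ∈ range h,
          (∏ p ∈ t, 1 / (p : ℝ)) * (∏ p ∈ Q \ t, (1 - 2 / (p : ℝ))) *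
        (if ((∏ p ∈ t, p : ℕ) : ℤ) ∣ ((i : ℤ) + 1) - ((j : ℤ) + 1) then (1 : ℝ) else 0) :=
      fun i _ => sum_comm
    rw [sum_congr rfl e1, sum_comm]
  rw [h5]
  have hq2 : ∀ p ∈ Q, 0 ≤ 1 - 2 / (p : ℝ) := by
    intro p hp
    have h6 : (2 : ℝ) ≤ p := by exact_mod_cast (hQ p hp).two_le
    have h7 : 2 / (p : ℝ) ≤ 1 := by
      rw [div_le_one (by linarith)]
      exact h6
    linarith
  calc ∑ t ∈ Q.powerset, (∏ p ∈ t, 1 / (p : ℝ)) * (∏ p ∈ Q \ t, (1 - 2 / (p : ℝ))) *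
        ∑ i ∈ range h, ∑ j ∈ range h,
          (if ((∏ p ∈ t, p : ℕ) : ℤ) ∣ ((i : ℤ) + 1) - ((j : ℤ) + 1) then (1 : ℝ) else 0)
      ≤ ∑ t ∈ Q.powerset, (∏ p ∈ t, 1 / (p : ℝ)) * (∏ p ∈ Q \ t, (1 - 2 / (p : ℝ))) *
        ((h : ℝ) ^ 2 / ((∏ p ∈ t, p : ℕ) : ℝ) + h) := by
        apply sum_le_sum
        intro t ht
        rw [mem_powerset] at ht
        apply mul_le_mul_of_nonneg_left
        · apply pairs
          exact prod_pos fun p hp => (hQ p (ht hp)).pos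
        · apply mul_nonneg
          · apply prod_nonneg
            intro p _
            positivity
          · apply prod_nonneg
            intro p hp
            exact hq2 p (mem_sdiff.1 hp).1
    _ = (∑ t ∈ Q.powerset, (∏ p ∈ t, 1 / (p : ℝ) ^ 2) * (∏ p ∈ Q \ t, (1 - 2 / (p : ℝ)))) * (h : ℝ) ^ 2 +
        (∑ t ∈ Q.powerset, (∏ p ∈ t, 1 / (p : ℝ)) * (∏ p ∈ Q \ t, (1 - 2 / (p : ℝ)))) * h := by
        rw [sum_mul, sum_mul, ← sum_add_distrib]
        apply sum_congr rfl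
        intro t ht
        rw [mem_powerset] at ht
        have h8 : ∏ p ∈ t, 1 / (p : ℝ) ^ 2 = (∏ p ∈ t, 1 / (p : ℝ)) * (1 / ((∏ p ∈ t, p : ℕ) : ℝ)) := by
          push_cast
          rw [one_div (∏ p ∈ t, (p : ℝ)), ← prod_inv_distrib, ← prod_mul_distrib]
          apply prod_congr rfl
          intro p _
          ring
        rw [h8]
        ring
    _ = (∏ p ∈ Q, (1 / (p : ℝ) ^ 2 + (1 - 2 / (p : ℝ)))) * (h : ℝ) ^ 2 +
        (∏ p ∈ Q, (1 / (p : ℝ) + (1 - 2 / (p : ℝ)))) * h := by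
        rw [prod_add, prod_add]
    _ = rho Q ^ 2 * h ^ 2 + rho Q * h := by
        congr 2
        · rw [rho, ← prod_pow]
          apply prod_congr rfl
          intro p _
          ring
        · rw [rho]
          apply prod_congr rfl
          intro p _
          ring

lemma av_CC (Q : Finset ℕ) (hQ : ∀ p ∈ Q, p.Prime) (h : ℕ) :
    av (PP Q) (fun y => CC Q h y) = rho Q * h := by
  unfold CC
  rw [av_sum, sum_congr rfl (fun i _ => av_cop Q hQ _), sum_const, card_range, nsmul_eq_mul]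
  ring

end Pool.Agent.H541.LL
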