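import Pool.Agent.H541.LL.Rec

set_option autoImplicit false

/-!
Counting survivors in the binary tree: the nodes of level `n` are the numbers `k < 2 ^ n`, the
ancestor `s` levels above `k` is `k / 2 ^ s`.
-/

namespace Pool.Agent.H541.LL

open Finset

open Classical in
/-- the survivors of level `n`: no ancestor (including the node itself) is bad -/
noncomputable def surv (Bad : ℕ → ℕ → Prop) : ℕ → Finset ℕ
  | 0 => (range 1).filter (fun k => ¬ Bad 0 k)
  | n + 1 => (range (2 ^ (n + 1))).filter (fun k => k / 2 ∈ surv Bad n ∧ ¬ Bad (n + 1) k)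

lemma surv_lt (Bad : ℕ → ℕ → Prop) (n k : ℕ) (h : k ∈ surv Bad n) : k < 2 ^ n := by
  cases n with
  | zero =>
    simp only [surv, mem_filter, mem_range] at h
    simpa using h.1
  | succ n =>
    simp only [surv, mem_filter, mem_range] at h
    exact h.1

lemma surv_not_bad (Bad : ℕ → ℕ → Prop) (n k : ℕ) (h : k ∈ surv Bad n) : ¬ Bad n k := by
  cases n with
  | zero =>
    simp only [surv, mem_filter, mem_range] at h
    exact h.2
  | succ n =>
    simp only [surv, mem_filter, mem_range] at h
    exact h.2.2

lemma surv_anc (Bad : ℕ → ℕ → Prop) (m s k : ℕ) (h : k ∈ surv Bad (m + s)) :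
    k / 2 ^ s ∈ surv Bad m := by
  induction s generalizing k with
  | zero => simpa using h
  | succ s ih =>
    have h1 : k ∈ surv Bad (m + s + 1) := h
    simp only [surv, mem_filter, mem_range] at h1
    have h2 := ih _ h1.2.1
    rw [Nat.div_div_eq_div_mul] at h2
    rw [pow_succ']
    exact h2

open Classical in
/-- number of survivors from below -/
lemma surv_card (x β η : ℝ) (s t : ℕ) (R E U : ℕ → ℕ → Prop) (u : ℕ → ℝ)
    (hs : 1 ≤ s) (ht : 1 ≤ t) (hx0 : 0 < x) (hx1 : x < 1) (hβ : 0 ≤ β) (hη : 0 ≤ η)
    (hx : 2 * β / (1 - x) ^ s + 2 * η / (1 - x) ^ t ≤ x)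
    (hR0 : ∀ n k, n < s → ¬ R n k) (hE0 : ∀ n k, n < t → ¬ E n k)
    (hR : ∀ m j N, N = m + s → ¬ E m j → j < 2 ^ m →
      (((range (2 ^ N)).filter (fun k => k / 2 ^ s = j ∧ R N k)).card : ℝ) ≤ β * 2 ^ s)
    (hE : ∀ m j N, N = m + t → j < 2 ^ m →
      (((range (2 ^ N)).filter (fun k => k / 2 ^ t = j ∧ E N k)).card : ℝ) ≤ η * 2 ^ t)
    (hU : ∀ n, (((range (2 ^ n)).filter (fun k => U n k)).card : ℝ) ≤ u n)
    (hu : ∀ n, ∑ k ∈ range (n + 1), u k / (2 * (1 - x)) ^ k ≤ 1 / 2) (n : ℕ) :
    (2 * (1 - x)) ^ n / 2 ≤ ((surv (fun n k => R n k ∨ E n k ∨ U n k) n).card : ℝ) := by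
  set Bad : ℕ → ℕ → Prop := fun n k => R n k ∨ E n k ∨ U n k with hBad
  refine rec_bound x β η s t (fun n => ((surv Bad n).card : ℝ)) u hs ht hx0 hx1 hβ hη hx ?_ hu ?_ ?_ n
  · intro n
    exact le_trans (by positivity) (hU n)
  · -- level 0
    have h1 := hU 0
    by_cases hU0 : U 0 0
    · have : ((range (2 ^ 0)).filter (fun k => U 0 k)).card = 1 := by
        rw [card_eq_one]
        refine ⟨0, ?_⟩
        ext k
        simp only [pow_zero, mem_filter, mem_range, Nat.lt_one_iff, mem_singleton]
        constructor
        · rintro ⟨h, -⟩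
          exact h
        · rintro rfl
          exact ⟨rfl, hU0⟩
      rw [this] at h1
      have : (0 : ℝ) ≤ ((surv Bad 0).card : ℝ) := by positivity
      push_cast at h1
      linarith
    · have h0 : surv Bad 0 = {0} := by
        ext k
        simp only [surv, mem_filter, mem_range, Nat.lt_one_iff, mem_singleton]
        constructor
        · rintro ⟨h, -⟩
          exact h
        · rintro rfl
          refine ⟨rfl, ?_⟩
          rintro (h | h | h)
          · exact hR0 0 0 (by omega) h
          · exact hE0 0 0 (by omega) h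
          · exact hU0 h
      rw [h0, card_singleton]
      have : (0 : ℝ) ≤ u 0 := le_trans (by positivity) h1
      push_cast
      linarith
  · intro n
    -- the children of survivors
    set C : Finset ℕ := (range (2 ^ (n + 1))).filter (fun k => k / 2 ∈ surv Bad n) with hC
    have hCcard : 2 * (surv Bad n).card ≤ C.card := by
      have h1 : ((surv Bad n) ×ˢ (range 2)).card ≤ C.card := by
        apply card_le_card_of_injOn (fun p => 2 * p.1 + p.2)
        · intro p hp
          simp only [coe_product, Set.mem_prod, mem_coe, mem_range] at hp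
          simp only [hC, coe_filter, mem_range, Set.mem_ofPred_eq]
          have h2 := surv_lt Bad n p.1 hp.1
          have h3 : (2 * p.1 + p.2) / 2 = p.1 := by omega
          rw [h3]
          refine ⟨?_, hp.1⟩
          rw [pow_succ]
          omega
        · intro p hp q hq h
          simp only [coe_product, Set.mem_prod, mem_coe, mem_range] at hp hq
          simp only at h
          ext
          · omega
          · omega
      rw [card_product, card_range] at h1
      omega
    have hCm : ∀ (r : ℕ), 1 ≤ r → r ≤ n + 1 → ∀ k ∈ C, k / 2 ^ r ∈ surv Bad (n + 1 - r) := by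
      intro r hr hr2 k hk
      simp only [hC, mem_filter, mem_range] at hk
      have h1 := surv_anc Bad (n + 1 - r) (r - 1) (k / 2) (by
        have : n + 1 - r + (r - 1) = n := by omega
        rw [this]
        exact hk.2)
      rw [Nat.div_div_eq_div_mul, ← pow_succ'] at h1
      have : r - 1 + 1 = r := by omega
      rwa [this] at h1
    have hsub : C ⊆ surv Bad (n + 1) ∪ (C.filter (fun k => R (n + 1) k) ∪
        (C.filter (fun k => E (n + 1) k) ∪ (range (2 ^ (n + 1))).filter (fun k => U (n + 1) k))) := by
      intro k hk
      have hk' := hk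
      simp only [hC, mem_filter, mem_range] at hk'
      simp only [mem_union, mem_filter, mem_range, surv]
      by_cases h1 : R (n + 1) k
      · exact Or.inr (Or.inl ⟨hk, h1⟩)
      by_cases h2 : E (n + 1) k
      · exact Or.inr (Or.inr (Or.inl ⟨hk, h2⟩))
      by_cases h3 : U (n + 1) k
      · exact Or.inr (Or.inr (Or.inr ⟨hk'.1, h3⟩))
      · refine Or.inl ⟨hk'.1, hk'.2, ?_⟩
        rintro (h | h | h)
        · exact h1 h
        · exact h2 h
        · exact h3 h
    have hcard := (card_le_card hsub).trans (card_union_le _ _)
    have hcard2 := card_union_le (C.filter (fun k => R (n + 1) k))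
        (C.filter (fun k => E (n + 1) k) ∪ (range (2 ^ (n + 1))).filter (fun k => U (n + 1) k))
    have hcard3 := card_union_le (C.filter (fun k => E (n + 1) k))
        ((range (2 ^ (n + 1))).filter (fun k => U (n + 1) k))
    -- the removed ones
    have hRc : ((C.filter (fun k => R (n + 1) k)).card : ℝ) ≤
        (if s ≤ n + 1 then β * 2 ^ s * ((surv Bad (n + 1 - s)).card : ℝ) else 0) := by
      split_ifs with h
      · have h1 : (C.filter (fun k => R (n + 1) k)).card ≤ ∑ j ∈ surv Bad (n + 1 - s),
            ((C.filter (fun k => R (n + 1) k)).filter (fun k => k / 2 ^ s = j)).card := by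
          rw [← card_eq_sum_card_fiberwise]
          intro k hk
          have hk2 : k ∈ C := (mem_filter.1 (mem_coe.1 hk)).1
          exact mem_coe.2 (hCm s hs h k hk2)
        have h2 : ∀ j ∈ surv Bad (n + 1 - s),
            ((((C.filter (fun k => R (n + 1) k)).filter (fun k => k / 2 ^ s = j)).card : ℕ) : ℝ)
              ≤ β * 2 ^ s := by
          intro j hj
          have h3 : ¬ E (n + 1 - s) j := by
            intro h4
            exact surv_not_bad Bad _ _ hj (Or.inr (Or.inl h4))
          have h4 := hR (n + 1 - s) j (n + 1) (by omega) h3 (surv_lt Bad _ _ hj)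
          refine le_trans ?_ h4
          norm_cast
          apply card_le_card
          intro k hk
          simp only [hC, mem_filter, mem_range] at hk ⊢
          exact ⟨hk.1.1.1, hk.2, hk.1.2⟩
        calc ((C.filter (fun k => R (n + 1) k)).card : ℝ) ≤ ∑ j ∈ surv Bad (n + 1 - s),
              ((((C.filter (fun k => R (n + 1) k)).filter (fun k => k / 2 ^ s = j)).card : ℕ) : ℝ) := by
              exact_mod_cast h1
          _ ≤ ∑ j ∈ surv Bad (n + 1 - s), β * 2 ^ s := sum_le_sum h2
          _ = β * 2 ^ s * ((surv Bad (n + 1 - s)).card : ℝ) := by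
              rw [sum_const, nsmul_eq_mul]
              ring
      · have : C.filter (fun k => R (n + 1) k) = ∅ := by
          apply filter_false_of_mem
          intro k _
          exact hR0 _ _ (by omega)
        rw [this]
        simp
    have hEc : ((C.filter (fun k => E (n + 1) k)).card : ℝ) ≤
        (if t ≤ n + 1 then η * 2 ^ t * ((surv Bad (n + 1 - t)).card : ℝ) else 0) := by
      split_ifs with h
      · have h1 : (C.filter (fun k => E (n + 1) k)).card ≤ ∑ j ∈ surv Bad (n + 1 - t),
            ((C.filter (fun k => E (n + 1) k)).filter (fun k => k / 2 ^ t = j)).card := by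
          rw [← card_eq_sum_card_fiberwise]
          intro k hk
          have hk2 : k ∈ C := (mem_filter.1 (mem_coe.1 hk)).1
          exact mem_coe.2 (hCm t ht h k hk2)
        have h2 : ∀ j ∈ surv Bad (n + 1 - t),
            ((((C.filter (fun k => E (n + 1) k)).filter (fun k => k / 2 ^ t = j)).card : ℕ) : ℝ)
              ≤ η * 2 ^ t := by
          intro j hj
          have h4 := hE (n + 1 - t) j (n + 1) (by omega) (surv_lt Bad _ _ hj)
          refine le_trans ?_ h4
          norm_cast
          apply card_le_card
          intro k hk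
          simp only [hC, mem_filter, mem_range] at hk ⊢
          exact ⟨hk.1.1.1, hk.2, hk.1.2⟩
        calc ((C.filter (fun k => E (n + 1) k)).card : ℝ) ≤ ∑ j ∈ surv Bad (n + 1 - t),
              ((((C.filter (fun k => E (n + 1) k)).filter (fun k => k / 2 ^ t = j)).card : ℕ) : ℝ) := by
              exact_mod_cast h1
          _ ≤ ∑ j ∈ surv Bad (n + 1 - t), η * 2 ^ t := sum_le_sum h2
          _ = η * 2 ^ t * ((surv Bad (n + 1 - t)).card : ℝ) := by
              rw [sum_const, nsmul_eq_mul]
              ring
      · have : C.filter (fun k => E (n + 1) k) = ∅ := by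
          apply filter_false_of_mem
          intro k _
          exact hE0 _ _ (by omega)
        rw [this]
        simp
    have hUc := hU (n + 1)
    have e1 : (2 * (surv Bad n).card : ℝ) ≤ (surv Bad (n + 1)).card +
        ((C.filter (fun k => R (n + 1) k)).card + ((C.filter (fun k => E (n + 1) k)).card +
          ((range (2 ^ (n + 1))).filter (fun k => U (n + 1) k)).card)) := by
      have : 2 * (surv Bad n).card ≤ (surv Bad (n + 1)).card +
        ((C.filter (fun k => R (n + 1) k)).card + ((C.filter (fun k => E (n + 1) k)).card +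
          ((range (2 ^ (n + 1))).filter (fun k => U (n + 1) k)).card)) := by omega
      exact_mod_cast this
    linarith

end Pool.Agent.H541.LL
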