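import Pool.Agent.H541.LL.Param

set_option autoImplicit false

/-!
The uniform lower bound for the content.
-/

namespace Pool.Agent.H541.LL

open Finset Metric
open scoped ENNReal

/-- For every multiplicity `M` and every exponent `d < 1` there are a finite set `Q` of primes and a
threshold such that for ALL families `(lam i, c i)` with at most `M` members `lam i` in every interval
`(x, 2 x]` the set of all `θ` in `[0, 1]` such that all integers `⌊θ lam i + c i⌋` with `lam i` above the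
threshold have a divisor in `Q` has `d`-dimensional Hausdorff content at least `1 / 12`. -/
theorem content_uniform (M : ℕ) (hM : 1 ≤ M) (d : ℝ) (hd0 : 0 < d) (hd1 : d < 1) :
    ∃ (Q : Finset ℕ) (T : ℝ), (∀ p ∈ Q, p.Prime) ∧ 0 < T ∧ ∀ (ι : Type) (lam c : ι → ℝ),
      (∀ x : ℝ, 0 < x → ∃ F : Finset ι, F.card ≤ M ∧ ∀ n, x < lam n → lam n ≤ 2 * x → n ∈ F) →
      ∀ V : ℕ → Set ℝ, {θ : ℝ | θ ∈ Set.Icc (0 : ℝ) 1 ∧
        ∀ n, T ≤ lam n → ∃ p ∈ Q, (p : ℤ) ∣ ⌊θ * lam n + c n⌋} ⊆ ⋃ i, V i →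
      (1 / 12 : ℝ≥0∞) ≤ ∑' i, ediam (V i) ^ d := by
  have h2d : (2 : ℝ) ^ (d - 1) < 1 := Real.rpow_lt_one_of_one_lt_of_neg (by norm_num) (by linarith)
  obtain ⟨Q, s, t, r, K, x, hQ, hr, hK, hs, ht, hx0, hx1, hxδ, hx⟩ :=
    exists_params M hM (1 - 2 ^ (d - 1)) (by linarith)
  refine ⟨Q, (2 : ℝ) ^ (s + t), hQ, by positivity, ?_⟩
  intro ι lam c hF V hV
  set d' : ℝ := Real.logb 2 (2 * (1 - x)) with hd'
  have h1 : (2 : ℝ) ^ d' = 2 * (1 - x) :=
    Real.rpow_logb (by norm_num) (by norm_num) (by linarith)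
  have hdd : d ≤ d' := by
    rw [hd', Real.le_logb_iff_rpow_le (by norm_num) (by linarith)]
    have h2 : (2 : ℝ) ^ d = 2 * 2 ^ (d - 1) := by
      rw [Real.rpow_sub_one (by norm_num)]
      ring
    rw [h2]
    linarith
  have h3 := core_content Q hQ s t M r hr K hK hs ht x d' hx0 hx1 hx h1 lam c hF V hV
  by_contra hcon
  push Not at hcon
  have h4 : ∑' i, ediam (V i) ^ d' ≤ ∑' i, ediam (V i) ^ d := by
    apply ENNReal.tsum_le_tsum
    intro i
    have h5 : ediam (V i) ^ d ≤ 1 := by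
      have h6 : ediam (V i) ^ d ≤ 1 / 12 := (ENNReal.le_tsum i).trans hcon.le
      refine h6.trans ?_
      rw [ENNReal.div_le_iff (by norm_num) (by norm_num)]
      norm_num
    have h7 : ediam (V i) ≤ 1 := by
      by_contra h8
      push Not at h8
      have := ENNReal.one_lt_rpow h8 hd0
      exact absurd h5 (not_le.2 this)
    exact ENNReal.rpow_le_rpow_of_exponent_ge h7 hdd
  exact absurd (h3.trans h4) (not_le.2 hcon)

end Pool.Agent.H541.LL
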